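import Pool.Agent.Lib_helper88.HamSplit.Pair

/-!
# The base lemma
-/

namespace Pool.Agent.Lib88.HamSplit

open List Pool.Agent.Lib53.HamBase Pool.Agent.Lib54.HP

variable {V : Type*} {E : V → V → Prop} {S : Finset V} {X Y : V → Prop}

lemma rch_mem {v : V} (h : Rch E S X v) : v ∈ S := by
  cases h with
  | base h _ => exact h
  | step _ _ h => exact h

lemma rch_mono {T : Finset V} {v : V} (h : Rch E S X v) (hS : S ⊆ T) : Rch E T X v := by
  induction h with
  | base h h' => exact Rch.base (hS h) h'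
  | step h1 h2 h3 ih => exact Rch.step ih h2 (hS h3)

lemma reachFrom_of (h : ∀ v ∈ S, Rch E S X v) : ReachFrom E S X := by
  intro C hC hne
  by_contra hcon
  push Not at hcon
  obtain ⟨h1, h2⟩ := hcon
  have key : ∀ v, Rch E S X v → v ∉ C := by
    intro v hv
    induction hv with
    | base _ h' => exact fun hc => h1 _ hc h'
    | step hu h' _ ih => exact fun hc => h2 _ (rch_mem hu) ih _ hc h'
  obtain ⟨c, hc⟩ := hne
  exact key c (h c (hC hc)) hc

lemma reachTo_of (h : ∀ v ∈ S, Rch (Rev E) S Y v) : ReachTo E S Y := by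
  intro C hC hne
  rcases reachFrom_of h C hC hne with h' | ⟨u, hu, huC, c, hc, huc⟩
  · exact Or.inl h'
  · exact Or.inr ⟨c, hc, u, hu, huC, huc⟩

lemma rch_of_reachFrom (h : ReachFrom E S X) : ∀ v ∈ S, Rch E S X v := by
  classical
  by_contra hcon
  push Not at hcon
  obtain ⟨v, hv, hv'⟩ := hcon
  rcases h (S.filter fun v => ¬ Rch E S X v) (Finset.filter_subset _ _)
    ⟨v, Finset.mem_filter.2 ⟨hv, hv'⟩⟩ with ⟨c, hc, h'⟩ | ⟨u, hu, huC, c, hc, huc⟩
  · rw [Finset.mem_filter] at hc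
    exact hc.2 (Rch.base hc.1 h')
  · rw [Finset.mem_filter] at hc
    have : Rch E S X u := by
      by_contra h'
      exact huC (Finset.mem_filter.2 ⟨hu, h'⟩)
    exact hc.2 (Rch.step this huc hc.1)

lemma reachFrom_rev (h : ReachTo E S Y) : ReachFrom (Rev E) S Y := by
  intro C hC hne
  rcases h C hC hne with h' | ⟨c, hc, u, hu, huC, hcu⟩
  · exact Or.inl h'
  · exact Or.inr ⟨u, hu, huC, c, hc, hcu⟩

lemma reachTo_rev (h : ReachFrom E S X) : ReachTo (Rev E) S X := by
  intro C hC hne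
  rcases h C hC hne with h' | ⟨u, hu, huC, c, hc, huc⟩
  · exact Or.inl h'
  · exact Or.inr ⟨c, hc, u, hu, huC, huc⟩

lemma semi_rev (h : Semi E S) : Semi (Rev E) S := fun u hu v hv huv =>
  (h u hu v hv huv).symm

lemma ham_of_rev (h : Ham (Rev E) S Y X) : Ham E S X Y := by
  obtain ⟨a, b, l, hp, ha, hb, hl⟩ := h
  refine ⟨b, a, l.reverse, ⟨?_, List.nodup_reverse.2 hp.nodup, ?_, ?_⟩, hb, ha, fun v => ?_⟩
  · rw [List.isChain_reverse]
    exact hp.chain
  · rw [List.head?_reverse]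
    exact hp.last
  · rw [List.getLast?_reverse]
    exact hp.head
  · rw [List.mem_reverse]
    exact hl v

lemma conn_rev (h : Conn (Rev E) S Y X) : Conn E S X Y := by
  obtain ⟨v, hv, hY⟩ := h
  have key : ∀ v, Rch (Rev E) S Y v → Rch E S X v → ∃ x, Rch E S X x ∧ Y x := by
    intro v hv
    induction hv with
    | base h h' => exact fun hr => ⟨_, hr, h'⟩
    | step h1 h2 h3 ih => exact fun hr => ih (Rch.step hr h2 (rch_mem h1))
  exact key v hv (Rch.base (rch_mem hv) hY)

/-- A walk to a reached vertex. -/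
lemma exists_walk {v : V} (h : Rch E S X v) : ∃ l : List V, l.IsChain E ∧ (∀ z ∈ l, z ∈ S) ∧
    (∃ a, l.head? = some a ∧ X a) ∧ l.getLast? = some v := by
  induction h with
  | base h h' => exact ⟨[_], by simp, by simpa using h, ⟨_, rfl, h'⟩, rfl⟩
  | step h1 h2 h3 ih =>
    rename_i u v
    obtain ⟨l, c, m, ⟨a, ha, hXa⟩, hl⟩ := ih
    refine ⟨l ++ [v], ?_, ?_, ⟨a, ?_, hXa⟩, ?_⟩
    · rw [isChain_mid]
      refine ⟨c, by simp, ?_, by simp⟩
      intro x hx
      rw [hl] at hx
      obtain rfl : u = x := by simpa using hx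
      exact h2
    · intro z hz
      rcases List.mem_append.1 hz with hz | hz
      · exact m z hz
      · rw [List.mem_singleton.1 hz]; exact h3
    · rw [List.head?_append, ha]; rfl
    · rw [List.getLast?_append]; rfl

/-- A path of `A` in the list form stays inside `S`, if the arcs do. -/
lemma chain_sub : ∀ (l : List V), l.IsChain (fun u v => u ∈ S ∧ v ∈ S ∧ E u v) →
    (∀ a ∈ l.head?, a ∈ S) → l.IsChain E ∧ ∀ v ∈ l, v ∈ S := by
  intro l
  induction l with
  | nil => simp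
  | cons a l ih =>
    intro hc hh
    rw [List.isChain_cons] at hc
    obtain ⟨h1, h2⟩ := ih hc.2 fun b hb => (hc.1 b hb).2.1
    refine ⟨List.isChain_cons.2 ⟨fun b hb => (hc.1 b hb).2.2, h1⟩, ?_⟩
    intro v hv
    rcases List.mem_cons.1 hv with rfl | hv
    · exact hh v (by simp)
    · exact h2 v hv

lemma chain_sub' : ∀ (l : List V), l.IsChain E → (∀ v ∈ l, v ∈ S) →
    l.IsChain (fun u v => u ∈ S ∧ v ∈ S ∧ E u v) := by
  intro l
  induction l with
  | nil => simp
  | cons b l ih =>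
    intro c hm
    rw [List.isChain_cons] at c ⊢
    exact ⟨fun d hd => ⟨hm b (by simp), hm d (List.mem_cons_of_mem _
      (List.mem_of_head? hd)), c.1 d hd⟩, ih c.2 fun z hz => hm z (List.mem_cons_of_mem _ hz)⟩

/-- **Three connected.** -/
lemma ham_of_M3 [DecidableEq V] (hS : Semi E S) (hX : ReachFrom E S X) (hY : ReachTo E S Y)
    (h2 : 2 ≤ S.card)
    (h : ∀ u ∈ S, ∀ v ∈ S, u ≠ v → Conn E ((S.erase u).erase v) X Y) : Ham E S X Y := by
  obtain ⟨P, hP, hd⟩ := menger (fun u v => u ∈ S ∧ v ∈ S ∧ E u v) S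
    (fun u v h => ⟨h.1, h.2.1⟩) (fun x => x ∈ S ∧ X x) (fun y => y ∈ S ∧ Y y) 3 (by
    intro T hT hsep
    obtain ⟨B, hTB, hBS, hB⟩ := Finset.exists_subsuperset_card_eq
      (Finset.inter_subset_right (s₁ := T) (s₂ := S))
      ((Finset.card_le_card Finset.inter_subset_left).trans (Nat.le_of_lt_succ hT)) h2
    obtain ⟨u, v, huv, rfl⟩ := Finset.card_eq_two.1 hB
    obtain ⟨y, hr, hYy⟩ := h u (hBS (by simp)) v (hBS (by simp)) huv
    obtain ⟨l, c, m, ⟨a, ha, hXa⟩, hl⟩ := exists_walk hr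
    have hm : ∀ z ∈ l, z ∈ S := fun z hz =>
      Finset.mem_of_mem_erase (Finset.mem_of_mem_erase (m z hz))
    obtain ⟨z, hz, hzT⟩ := hsep l ⟨chain_sub' l c hm, ⟨a, ha, hm a (List.mem_of_head? ha), hXa⟩,
      ⟨y, hl, hm y (List.mem_of_getLast? hl), hYy⟩⟩
    have h1 := m z hz
    have h3 := hTB (Finset.mem_inter.2 ⟨hzT, hm z hz⟩)
    simp only [Finset.mem_erase, Finset.mem_insert, Finset.mem_singleton] at h1 h3
    tauto)
  refine ham_of_three (P := P) hS hX hY ⟨fun i => ?_, hd⟩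
  obtain ⟨a, b, hp, ha, hb⟩ := hP i
  have hh := hp.head
  obtain ⟨c, m⟩ := chain_sub (P i) hp.chain (by
    intro x hx
    rw [hh] at hx
    obtain rfl : a = x := by simpa using hx
    exact ha.1)
  exact ⟨⟨a, b, ⟨c, hp.nodup, hp.head, hp.last⟩, ha.2, hb.2⟩, m⟩

/-- **The union rule.** -/
lemma union_rule [DecidableEq V] {u : V} (hS : Semi E S) (hu : u ∈ S) (hX : X u)
    (hex : ∃ w ∈ S, w ≠ u ∧ E u w) (h : Ham E (S.erase u) (fun z => X z ∨ E u z) Y) :
    Ham E S X Y := by
  obtain ⟨a, b, l, hp, ha, hb, hl⟩ := h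
  have hul : u ∉ l := fun h => by simpa using (hl u).1 h
  have hcov : ∀ v, v ∈ u :: l ↔ v ∈ S := by
    intro v
    rw [List.mem_cons, hl, Finset.mem_erase]
    by_cases h : v = u
    · simp [h, hu]
    · simp [h]
  by_cases hE : E u a
  · exact ⟨u, b, u :: l, hp.cons hE hul, hX, hb, hcov⟩
  · have hXa : X a := ha.resolve_right hE
    obtain ⟨w, hw, hwu, hE'⟩ := hex
    rcases hp.ins_b hul (fun z hz => hS z (Finset.mem_of_mem_erase ((hl z).1 hz)) u hu
      (fun e => hul (e ▸ hz))) ⟨w, (hl w).2 (Finset.mem_erase.2 ⟨hwu, hw⟩), hE'⟩ with h' | ⟨l', h1, h2⟩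
    · exact absurd h' hE
    · exact ⟨a, b, l', h1, hXa, hb, fun v => by rw [h2.mem_iff, hcov]⟩

/-- Reachability after deleting a first vertex. -/
lemma rch_shift [DecidableEq V] {x v : V} (h : Rch E S X v) :
    v = x ∨ Rch E (S.erase x) (fun z => X z ∨ E x z) v := by
  induction h with
  | base h h' =>
    rename_i v
    by_cases hv : v = x
    · exact Or.inl hv
    · exact Or.inr (Rch.base (Finset.mem_erase.2 ⟨hv, h⟩) (Or.inl h'))
  | step h1 h2 h3 ih =>
    rename_i u v
    by_cases hv : v = x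
    · exact Or.inl hv
    · right
      have hv' : v ∈ S.erase x := Finset.mem_erase.2 ⟨hv, h3⟩
      rcases ih with rfl | ih
      · exact Rch.base hv' (Or.inr h2)
      · exact Rch.step ih h2 hv'

lemma reachFrom_shift [DecidableEq V] {x : V} (h : ReachFrom E S X) :
    ReachFrom E (S.erase x) fun z => X z ∨ E x z := by
  refine reachFrom_of fun v hv => ?_
  rw [Finset.mem_erase] at hv
  exact (rch_shift (rch_of_reachFrom h v hv.2)).resolve_left hv.1

lemma conn_shift [DecidableEq V] {x : V} (h : Conn E S X Y) (hx : ¬ Y x) :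
    Conn E (S.erase x) (fun z => X z ∨ E x z) Y := by
  obtain ⟨v, hv, hY⟩ := h
  exact ⟨v, (rch_shift hv).resolve_left (fun e => hx (e ▸ hY)), hY⟩

lemma erase3 [DecidableEq V] {x u v : V} :
    ((S.erase x).erase u).erase v = ((S.erase u).erase v).erase x := by
  ext z
  simp only [Finset.mem_erase]
  tauto

lemma exists_out {x : V} (hx : x ∈ S) (hY : ReachTo E S Y) (hn : ¬ Y x) :
    ∃ w ∈ S, w ≠ x ∧ E x w := by
  rcases hY {x} (by simpa using hx) (by simp) with ⟨c, hc, h⟩ | ⟨c, hc, u, hu, huC, hcu⟩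
  · rw [Finset.mem_singleton.1 hc] at h
    exact absurd h hn
  · rw [Finset.mem_singleton.1 hc] at hcu
    exact ⟨u, hu, by simpa using huC, hcu⟩

/-- Two first vertices, at least three last vertices. -/
lemma case23 [DecidableEq V] {a b : V} (hS : Semi E S) (hab : a ≠ b) (ha : a ∈ S) (hb : b ∈ S)
    (hX : ∀ z ∈ S, X z ↔ z = a ∨ z = b) (hY : ∀ u v, ∃ y ∈ S, Y y ∧ y ≠ u ∧ y ≠ v)
    (hns : ∀ u ∈ S, ∀ v ∈ S, u ≠ v → ¬ Conn E ((S.erase u).erase v) X Y →
      (∀ z ∈ S, X z → z = u ∨ z = v) ∨ ∀ z ∈ S, Y z → z = u ∨ z = v)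
    (cX : ReachFrom E S X) (cY : ReachTo E S Y)
    (ka : ReachTo E (S.erase a) Y) (kb : ReachTo E (S.erase b) Y) : Ham E S X Y := by
  have hXa : X a := (hX a ha).2 (Or.inl rfl)
  have hXb : X b := (hX b hb).2 (Or.inr rfl)
  have hns' : ∀ u ∈ S, ∀ v ∈ S, u ≠ v → ¬ Conn E ((S.erase u).erase v) X Y →
      ∀ z ∈ S, X z → z = u ∨ z = v := by
    intro u hu v hv huv hc
    refine (hns u hu v hv huv hc).resolve_right fun h => ?_
    obtain ⟨y, hy, hYy, h1, h2⟩ := hY u v
    rcases h y hy hYy with h | h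
    · exact h1 h
    · exact h2 h
  have step : ∀ x ∈ S, X x → ¬ Y x → ReachTo E (S.erase x) Y → Ham E S X Y := by
    intro x hx hXx hYx hk
    refine union_rule hS hx hXx (exists_out hx cY hYx) (ham_of_M3
      (hS.mono (Finset.erase_subset _ _)) (reachFrom_shift cX) hk ?_ ?_)
    · obtain ⟨y₁, h1, h2, h3, -⟩ := hY x x
      obtain ⟨y₂, h1', h2', h3', h4'⟩ := hY x y₁
      exact Finset.one_lt_card.2 ⟨y₁, Finset.mem_erase.2 ⟨h3, h1⟩, y₂,
        Finset.mem_erase.2 ⟨h3', h1'⟩, h4'.symm⟩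
    · intro u hu v hv huv
      by_contra hcon
      rw [erase3] at hcon
      rw [Finset.mem_erase] at hu hv
      rcases hns' u hu.2 v hv.2 huv (fun h => hcon (conn_shift h hYx)) x hx hXx with h | h
      · exact hu.1 h.symm
      · exact hv.1 h.symm
  by_cases hYa : Y a
  swap
  · exact step a ha hXa hYa ka
  by_cases hYb : Y b
  swap
  · exact step b hb hXb hYb kb
  by_cases hs : Strong E S
  swap
  · exact ham_of_not_strong hS cX cY hs
  obtain ⟨y, hy, hYy, h1, h2⟩ := hY a b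
  exact pair_lemma hab ha hb hS hs hXa hXb hYa hYb ka kb (Or.inl ⟨y, hy, h1, h2, Or.inr hYy⟩)

/-- At least three first vertices, two last vertices. -/
lemma case32 [DecidableEq V] {a b : V} (hS : Semi E S) (hab : a ≠ b) (ha : a ∈ S) (hb : b ∈ S)
    (hY : ∀ z ∈ S, Y z ↔ z = a ∨ z = b) (hX : ∀ u v, ∃ y ∈ S, X y ∧ y ≠ u ∧ y ≠ v)
    (hns : ∀ u ∈ S, ∀ v ∈ S, u ≠ v → ¬ Conn E ((S.erase u).erase v) X Y →
      (∀ z ∈ S, X z → z = u ∨ z = v) ∨ ∀ z ∈ S, Y z → z = u ∨ z = v)
    (cX : ReachFrom E S X) (cY : ReachTo E S Y)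
    (ka : ReachFrom E (S.erase a) X) (kb : ReachFrom E (S.erase b) X) : Ham E S X Y :=
  ham_of_rev (case23 (semi_rev hS) hab ha hb hY hX
    (fun u hu v hv huv hc => (hns u hu v hv huv fun h => hc (conn_rev h)).symm)
    (reachFrom_rev cY) (reachTo_rev cX) (reachTo_rev ka) (reachTo_rev kb))

/-- Two first vertices, two last vertices, at least seven vertices. -/
lemma case22 [DecidableEq V] {a b c d : V} (hS : Semi E S) (hab : a ≠ b) (ha : a ∈ S)
    (hb : b ∈ S) (hcd : c ≠ d) (hc : c ∈ S) (hd : d ∈ S)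
    (hX : ∀ z ∈ S, X z ↔ z = a ∨ z = b) (hY : ∀ z ∈ S, Y z ↔ z = c ∨ z = d)
    (hns : NoSep2 E S X Y) (h7 : 7 ≤ S.card)
    (cX : ReachFrom E S X) (cY : ReachTo E S Y)
    (ka : ReachTo E (S.erase a) Y) (kb : ReachTo E (S.erase b) Y)
    (kc : ∀ z ∈ S.erase c, Rch E (S.erase c) X z)
    (kd : ∀ z ∈ S.erase d, Rch E (S.erase d) X z) : Ham E S X Y := by
  -- a first vertex that is not a last vertex
  have step : ∀ {a b : V}, a ≠ b → a ∈ S → b ∈ S → (∀ z ∈ S, X z ↔ z = a ∨ z = b) →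
      ReachTo E (S.erase b) Y → ¬ Y b → Ham E S X Y := by
    intro a b hab ha hb hX kb hYb
    have hXb : X b := (hX b hb).2 (Or.inr rfl)
    have hcb : c ≠ b := fun e => hYb ((hY b hb).2 (Or.inl e.symm))
    have hdb : d ≠ b := fun e => hYb ((hY b hb).2 (Or.inr e.symm))
    refine union_rule hS hb hXb (exists_out hb cY hYb) (case32
      (hS.mono (Finset.erase_subset _ _)) hcd (Finset.mem_erase.2 ⟨hcb, hc⟩)
      (Finset.mem_erase.2 ⟨hdb, hd⟩) (fun z hz => hY z (Finset.mem_of_mem_erase hz)) ?_ ?_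
      (reachFrom_shift cX) kb ?_ ?_)
    · -- three first vertices
      intro u v
      by_contra hcon
      push Not at hcon
      have h1 : ∀ x ∈ S, x ≠ b → X x ∨ E b x → x = u ∨ x = v := by
        intro x hx hxb h
        by_contra h'
        push Not at h'
        exact h'.2 (hcon x (Finset.mem_erase.2 ⟨hxb, hx⟩) h h'.1)
      obtain ⟨e, he, hea, heb, h2⟩ : ∃ e ∈ S, e ≠ a ∧ e ≠ b ∧
          ∀ x ∈ S, x ≠ b → X x ∨ E b x → x = a ∨ x = e := by
        obtain ⟨f, hf⟩ : ∃ f, ∀ x ∈ S, x ≠ b → X x ∨ E b x → x = a ∨ x = f := by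
          rcases h1 a ha hab (Or.inl ((hX a ha).2 (Or.inl rfl))) with h | h
          · subst h; exact ⟨v, h1⟩
          · subst h; exact ⟨u, fun x hx hxb h => (h1 x hx hxb h).symm⟩
        by_cases hf' : f ∈ S ∧ f ≠ a ∧ f ≠ b
        · exact ⟨f, hf'.1, hf'.2.1, hf'.2.2, hf⟩
        · obtain ⟨e, he, he'⟩ : ∃ e ∈ S, e ∉ ({a, b} : Finset V) :=
            Finset.exists_mem_notMem_of_card_lt_card
              (lt_of_le_of_lt (Finset.card_le_two) (by omega))
          simp only [Finset.mem_insert, Finset.mem_singleton, not_or] at he'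
          refine ⟨e, he, he'.1, he'.2, fun x hx hxb h => ?_⟩
          rcases hf x hx hxb h with h | h
          · exact Or.inl h
          · subst h
            left
            by_contra h'
            exact hf' ⟨hx, h', hxb⟩
      have h3 : ∀ z, Rch E ((S.erase a).erase e) X z → z = b := by
        intro z hz
        induction hz with
        | base h h' =>
          rename_i z
          simp only [Finset.mem_erase] at h
          by_contra hzb
          rcases h2 z h.2.2 hzb (Or.inl h') with h'' | h''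
          · exact h.2.1 h''
          · exact h.1 h''
        | step h h' h'' ih =>
          rename_i u z
          simp only [Finset.mem_erase] at h''
          subst ih
          by_contra hzb
          rcases h2 z h''.2.2 hzb (Or.inr h') with h4 | h4
          · exact h''.2.1 h4
          · exact h''.1 h4
      have hbm : b ∈ (S.erase a).erase e := by
        simp only [Finset.mem_erase]
        exact ⟨heb.symm, hab.symm, hb⟩
      rcases hns a ha e he hea.symm (by
        rintro ⟨z, hz, hYz⟩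
        rw [h3 z hz] at hYz
        exact hYb hYz) with h | h
      · exact h b hbm hXb
      · obtain ⟨z, hz, hz'⟩ : ∃ z ∈ S, z ∉ ({a, b, e} : Finset V) :=
          Finset.exists_mem_notMem_of_card_lt_card
            (lt_of_le_of_lt (Finset.card_le_three) (by omega))
        simp only [Finset.mem_insert, Finset.mem_singleton, not_or] at hz'
        exact hz'.2.1 (h3 z (h z (by simp only [Finset.mem_erase]; tauto)))
    · intro u hu v hv huv hcon
      right
      rw [erase3] at hcon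
      rw [Finset.mem_erase] at hu hv
      have hcon' : ¬ Conn E ((S.erase u).erase v) X Y := fun h => hcon (conn_shift h hYb)
      have hbm : b ∈ (S.erase u).erase v := by
        simp only [Finset.mem_erase]
        exact ⟨fun e => hv.1 e.symm, fun e => hu.1 e.symm, hb⟩
      intro z hz hYz
      rcases hns u hu.2 v hv.2 huv hcon' with h | h
      · exact absurd hXb (h b hbm)
      · by_contra hz'
        push Not at hz'
        refine hcon' ⟨z, h z ?_, hYz⟩
        simp only [Finset.mem_erase] at hz ⊢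
        exact ⟨hz'.2, hz'.1, hz.2⟩
    · refine reachFrom_of fun z hz => ?_
      rw [Finset.erase_right_comm] at hz ⊢
      rw [Finset.mem_erase] at hz
      exact (rch_shift (kc z hz.2)).resolve_left hz.1
    · refine reachFrom_of fun z hz => ?_
      rw [Finset.erase_right_comm] at hz ⊢
      rw [Finset.mem_erase] at hz
      exact (rch_shift (kd z hz.2)).resolve_left hz.1
  by_cases hYb : Y b
  swap
  · exact step hab ha hb hX kb hYb
  by_cases hYa : Y a
  swap
  · exact step hab.symm hb ha (fun z hz => by rw [hX z hz, or_comm]) ka hYa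
  by_cases hs : Strong E S
  swap
  · exact ham_of_not_strong hS cX cY hs
  exact pair_lemma hab ha hb hS hs ((hX a ha).2 (Or.inl rfl)) ((hX b hb).2 (Or.inr rfl)) hYa hYb
    ka kb (Or.inr h7)

lemma exists_third' [DecidableEq V] {X : Finset V} (h : 3 ≤ X.card) (hX : X ⊆ S) (u v : V) :
    ∃ y ∈ S, y ∈ X ∧ y ≠ u ∧ y ≠ v := by
  obtain ⟨y, hy, hy'⟩ : ∃ e ∈ X, e ∉ ({u, v} : Finset V) :=
    Finset.exists_mem_notMem_of_card_lt_card (lt_of_le_of_lt (Finset.card_le_two) (by omega))
  simp only [Finset.mem_insert, Finset.mem_singleton, not_or] at hy'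
  exact ⟨y, hX hy, hy, hy'⟩

/-- **The base lemma.** -/
theorem base_lemma {V : Type*} [DecidableEq V] (E : V → V → Prop) (S : Finset V)
    (X Y : Finset V) (hne : S.Nonempty) (hX : X ⊆ S) (hY : Y ⊆ S) (hS : Semi E S)
    (hC : Cov E S (· ∈ X) (· ∈ Y)) (hM : M2 E S (· ∈ X) (· ∈ Y))
    (hN : NoSep2 E S (· ∈ X) (· ∈ Y))
    (hRX : X.card = 2 → Red E S (· ∈ X) (· ∈ Y))
    (hRY : Y.card = 2 → Red (Rev E) S (· ∈ Y) (· ∈ X))
    (h6 : ¬ (X.card = 2 ∧ Y.card = 2 ∧ S.card ≤ 6)) :
    Ham E S (· ∈ X) (· ∈ Y) := by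
  have cX : ReachFrom E S (· ∈ X) := reachFrom_of hC.1
  have cY : ReachTo E S (· ∈ Y) := reachTo_of hC.2
  -- at least two first vertices
  have startOf : ∀ {T : Finset V} {P Q : V → Prop}, Conn E T P Q → ∃ x ∈ T, P x := by
    rintro T P Q ⟨v, hv, -⟩
    obtain ⟨l, -, m, ⟨a, ha, hP⟩, -⟩ := exists_walk hv
    exact ⟨a, m a (List.mem_of_head? ha), hP⟩
  have hX2 : 2 ≤ X.card := by
    obtain ⟨w, hw⟩ := hne
    obtain ⟨x, hx, hxX⟩ := startOf (hM w hw)
    obtain ⟨x', hx', hxX'⟩ := startOf (hM x (Finset.mem_of_mem_erase hx))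
    exact Finset.one_lt_card.2 ⟨x, hxX, x', hxX', fun e => by
      rw [Finset.mem_erase] at hx'
      exact hx'.1 e.symm⟩
  have hY2 : 2 ≤ Y.card := by
    obtain ⟨w, hw⟩ := hne
    obtain ⟨x, hx, hxY⟩ := hM w hw
    obtain ⟨x', hx', hxY'⟩ := hM x (Finset.mem_of_mem_erase (rch_mem hx))
    exact Finset.one_lt_card.2 ⟨x, hxY, x', hxY', fun e => by
      have := rch_mem hx'
      rw [Finset.mem_erase] at this
      exact this.1 e.symm⟩
  have hns : ∀ u ∈ S, ∀ v ∈ S, u ≠ v → ¬ Conn E ((S.erase u).erase v) (· ∈ X) (· ∈ Y) →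
      (∀ z ∈ S, z ∈ X → z = u ∨ z = v) ∨ ∀ z ∈ S, z ∈ Y → z = u ∨ z = v := by
    intro u hu v hv huv hcon
    rcases hN u hu v hv huv hcon with h | h
    · left
      intro z hz hzX
      by_contra hz'
      push Not at hz'
      exact h z (by simp only [Finset.mem_erase]; exact ⟨hz'.2, hz'.1, hz⟩) hzX
    · right
      intro z hz hzY
      by_contra hz'
      push Not at hz'
      exact hcon ⟨z, h z (by simp only [Finset.mem_erase]; exact ⟨hz'.2, hz'.1, hz⟩), hzY⟩
  rcases eq_or_lt_of_le hX2 with h2 | h3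
  · obtain ⟨a, b, hab, hXab⟩ := Finset.card_eq_two.1 h2.symm
    have ha : a ∈ X := by rw [hXab]; simp
    have hb : b ∈ X := by rw [hXab]; simp
    have hXe : ∀ z ∈ S, z ∈ X ↔ z = a ∨ z = b := fun z _ => by rw [hXab]; simp
    have hR := hRX h2.symm
    have ka : ReachTo E (S.erase a) (· ∈ Y) := reachTo_of (hR a (hX ha) ha)
    have kb : ReachTo E (S.erase b) (· ∈ Y) := reachTo_of (hR b (hX hb) hb)
    rcases eq_or_lt_of_le hY2 with h2' | h3'
    · obtain ⟨c, d, hcd, hYcd⟩ := Finset.card_eq_two.1 h2'.symm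
      have hc : c ∈ Y := by rw [hYcd]; simp
      have hd : d ∈ Y := by rw [hYcd]; simp
      have hYe : ∀ z ∈ S, z ∈ Y ↔ z = c ∨ z = d := fun z _ => by rw [hYcd]; simp
      have hR' := hRY h2'.symm
      refine case22 hS hab (hX ha) (hX hb) hcd (hY hc) (hY hd) hXe hYe hN ?_ cX cY ka kb
        (hR' c (hY hc) hc) (hR' d (hY hd) hd)
      by_contra h7
      exact h6 ⟨h2.symm, h2'.symm, by omega⟩
    · exact case23 hS hab (hX ha) (hX hb) hXe (exists_third' h3' hY) hns cX cY ka kb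
  · rcases eq_or_lt_of_le hY2 with h2' | h3'
    · obtain ⟨c, d, hcd, hYcd⟩ := Finset.card_eq_two.1 h2'.symm
      have hc : c ∈ Y := by rw [hYcd]; simp
      have hd : d ∈ Y := by rw [hYcd]; simp
      have hYe : ∀ z ∈ S, z ∈ Y ↔ z = c ∨ z = d := fun z _ => by rw [hYcd]; simp
      have hR' := hRY h2'.symm
      exact case32 hS hcd (hY hc) (hY hd) hYe (exists_third' h3 hX) hns cX cY
        (reachFrom_of (hR' c (hY hc) hc)) (reachFrom_of (hR' d (hY hd) hd))
    · refine ham_of_M3 hS cX cY ((by omega : 2 ≤ X.card).trans (Finset.card_le_card hX)) ?_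
      intro u hu v hv huv
      by_contra hcon
      rcases hns u hu v hv huv hcon with h | h
      · obtain ⟨y, hy, hyX, h1, h2⟩ := exists_third' h3 hX u v
        rcases h y hy hyX with h | h
        · exact h1 h
        · exact h2 h
      · obtain ⟨y, hy, hyX, h1, h2⟩ := exists_third' h3' hY u v
        rcases h y hy hyX with h | h
        · exact h1 h
        · exact h2 h

theorem baseLemma : BaseLemma := by
  intro V _ E S X Y hne hX hY hS hC hM hN hRX hRY h6
  exact base_lemma E S X Y hne hX hY hS hC hM hN hRX hRY h6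

end Pool.Agent.Lib88.HamSplit
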