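import Pool.Agent.Lib_helper88.HamSplit.Split1

/-!
# Splitting a hamiltonian path at two vertices
-/

namespace Pool.Agent.Lib88.HamSplit

open List Pool.Agent.Lib53.HamBase Pool.Agent.Lib54.HP

variable {V : Type*}

lemma chain_congr {R R' : V → V → Prop} : ∀ (l : List V), (∀ x ∈ l, ∀ y ∈ l, R x y → R' x y) →
    l.IsChain R → l.IsChain R' := by
  intro l
  induction l with
  | nil => simp
  | cons a l ih =>
    intro h hc
    rw [List.isChain_cons] at hc ⊢
    refine ⟨fun b hb => h a (by simp) b ?_ (hc.1 b hb), ih (fun x hx y hy =>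
      h x (List.mem_cons_of_mem _ hx) y (List.mem_cons_of_mem _ hy)) hc.2⟩
    exact List.mem_cons_of_mem _ (List.mem_of_head? hb)

lemma head_mid {l₁ l₂ : List V} {t : V} : (l₁ ++ t :: l₂).head? = (l₁ ++ [t]).head? := by
  cases l₁ <;> rfl

lemma last_mid {l₁ l₂ : List V} {t : V} : (l₁ ++ t :: l₂).getLast? = (t :: l₂).getLast? := by
  rw [List.getLast?_append, List.getLast?_cons]
  simp

/-- The situation of a pair of vertices that separates. -/
structure Ctx [DecidableEq V] (E : V → V → Prop) (A B : Finset V) (p q : V)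
    (X Y : V → Prop) : Prop where
  pq : p ≠ q
  pA : p ∉ A
  pB : p ∉ B
  qA : q ∉ A
  qB : q ∉ B
  d : ∀ x ∈ A, x ∉ B
  A_ne : A.Nonempty
  B_ne : B.Nonempty
  AB : ∀ a ∈ A, ∀ b ∈ B, ¬ E a b
  XB : ∀ b ∈ B, ¬ X b
  YA : ∀ a ∈ A, ¬ Y a
  semi : Semi E (insert p (insert q (A ∪ B)))

variable [DecidableEq V] {E : V → V → Prop} {A B : Finset V} {p q : V} {X Y : V → Prop}

lemma Ctx.symm (h : Ctx E A B p q X Y) : Ctx E A B q p X Y where
  pq := h.pq.symm
  pA := h.qA
  pB := h.qB
  qA := h.pA
  qB := h.pB
  d := h.d
  A_ne := h.A_ne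
  B_ne := h.B_ne
  AB := h.AB
  XB := h.XB
  YA := h.YA
  semi := by rw [Finset.insert_comm]; exact h.semi

lemma X1_symm : X1 E A X p q = X1 E A X q p := by
  funext z
  simp only [X1, eq_iff_iff]
  tauto

lemma E1_symm (h : p ≠ q) : E1 E A X p q = E1 E A X q p := by
  funext a b
  simp only [E1, eq_iff_iff]
  by_cases h1 : a = p ∧ b = q
  · obtain ⟨rfl, rfl⟩ := h1
    have h2 : ¬ (a = b ∧ b = a) := fun h' => h h'.1
    simp only [and_self, if_true, if_neg h2]
    tauto
  · rw [if_neg h1]
    by_cases h2 : a = q ∧ b = p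
    · rw [if_pos h2, if_pos h2]
      tauto
    · rw [if_neg h2, if_neg h2, if_neg h1]
      tauto

section E1

lemma E1_pq : E1 E A X p q p q ↔
    Dd E A X p q ∨ (Ff E A X p q ∧ Ff E A X q p) ∨ ¬ (Rr E A X p ∨ Ff E A X p q) := by
  simp [E1]

lemma E1_of {x y : V} (h : E x y) (h1 : ¬ (x = p ∧ y = q)) (h2 : ¬ (x = q ∧ y = p)) :
    E1 E A X p q x y := by
  simp only [E1, if_neg h1, if_neg h2]
  exact Or.inl h

lemma E1_B (h : Ctx E A B p q X Y) {x y : V} (hy : y ∈ B) : E1 E A X p q x y ↔ E x y := by
  have h1 : y ≠ p := fun e => h.pB (e ▸ hy)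
  have h2 : y ≠ q := fun e => h.qB (e ▸ hy)
  simp [E1, h1, h2]

lemma E1_Bq (h : Ctx E A B p q X Y) {x : V} (hx : x ∈ B) :
    E1 E A X p q x q ↔ E x q ∨ Ff E A X p q := by
  have h1 : x ≠ p := fun e => h.pB (e ▸ hx)
  have h2 : x ≠ q := fun e => h.qB (e ▸ hx)
  simp [E1, h1, h2, h.pq.symm]

end E1

/-- The two pieces of a path of `Ff`. -/
structure FfL (E : V → V → Prop) (A : Finset V) (X : V → Prop) (p q : V) (α₁ α₂ : List V) :
    Prop where
  ne : α₂ ≠ []
  nodup : (α₁ ++ p :: α₂).Nodup
  c1 : α₁.IsChain E
  c2 : α₂.IsChain E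
  j1 : ∀ x ∈ α₁.getLast?, E x p
  hX : ∀ a ∈ (α₁ ++ [p]).head?, X a
  hq : ∀ b ∈ α₂.getLast?, E b q
  mem : ∀ v, v ∈ α₁ ++ p :: α₂ ↔ v ∈ insert p A

lemma Ff_iff (hp : p ∉ A) : Ff E A X p q ↔ ∃ α₁ α₂, FfL E A X p q α₁ α₂ := by
  unfold Ff
  rw [ham_iff]
  constructor
  · rintro ⟨l, hne, hc, hn, hX, hY, hl⟩
    obtain ⟨α₁, α₂, rfl⟩ := List.append_of_mem ((hl p).2 (by simp))
    have hp1 : p ∉ α₁ ∧ p ∉ α₂ := by
      rw [List.nodup_middle, List.nodup_cons] at hn
      simpa using hn.1
    rw [isChain_mid] at hc
    obtain ⟨c1, c2, c3, c4⟩ := hc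
    rw [head_mid] at hX
    rw [last_mid] at hY
    have hne2 : α₂ ≠ [] := by
      rintro rfl
      exact hp (hY p (by simp)).1
    refine ⟨α₁, α₂, hne2, hn, ?_, ?_, ?_, hX, ?_, hl⟩
    · refine chain_congr α₁ (fun x hx y hy h => ?_) c1
      rcases h with h | h
      · exact h
      · exact absurd (h.1 ▸ hx) hp1.1
    · refine chain_congr α₂ (fun x hx y hy h => ?_) c2
      rcases h with h | h
      · exact h
      · exact absurd (h.1 ▸ hx) hp1.2
    · intro x hx
      rcases c3 x hx with h | h
      · exact h
      · exact absurd h.2 hp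
    · intro b hb
      obtain ⟨y, l, rfl⟩ := List.exists_cons_of_ne_nil hne2
      rw [List.getLast?_cons_cons] at hY
      exact (hY b hb).2
  · rintro ⟨α₁, α₂, h⟩
    have hp1 : p ∉ α₁ ∧ p ∉ α₂ := by
      have hn := h.nodup
      rw [List.nodup_middle, List.nodup_cons] at hn
      simpa using hn.1
    have hA : ∀ x ∈ α₂, x ∈ A := by
      intro x hx
      have := (h.mem x).1 (by simp [hx])
      rcases Finset.mem_insert.1 this with rfl | h'
      · exact absurd hx hp1.2
      · exact h'
    refine ⟨α₁ ++ p :: α₂, by simp, ?_, h.nodup, ?_, ?_, h.mem⟩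
    · rw [isChain_mid]
      refine ⟨chain_congr _ (fun _ _ _ _ h => Or.inl h) h.c1,
        chain_congr _ (fun _ _ _ _ h => Or.inl h) h.c2, fun x hx => Or.inl (h.j1 x hx),
        fun y hy => Or.inr ⟨rfl, hA y (List.mem_of_head? hy)⟩⟩
    · rw [head_mid]; exact h.hX
    · intro b hb
      rw [last_mid] at hb
      obtain ⟨y, l, rfl⟩ := List.exists_cons_of_ne_nil h.ne
      rw [List.getLast?_cons_cons] at hb
      exact ⟨hA b (List.mem_of_getLast? hb), h.hq b hb⟩

/-- Assembling a hamiltonian path from two lists. -/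
lemma assemble (h : Ctx E A B p q X Y) {l l₁ l₂ : List V} (hp : l ~ l₁ ++ l₂) (hne : l ≠ [])
    (h1 : l₁.Nodup) (h2 : l₂.Nodup) (m1 : ∀ v, v ∈ l₁ ↔ v ∈ insert p A)
    (m2 : ∀ v, v ∈ l₂ ↔ v ∈ insert q B) (hc : l.IsChain E) (hX : ∀ a ∈ l.head?, X a)
    (hY : ∀ b ∈ l.getLast?, Y b) : Ham E (insert p (insert q (A ∪ B))) X Y := by
  refine ham_iff.2 ⟨l, hne, hc, ?_, hX, hY, ?_⟩
  · refine hp.symm.nodup (List.nodup_append.2 ⟨h1, h2, ?_⟩)
    intro a ha b hb hab
    subst hab
    rw [m1, Finset.mem_insert] at ha
    rw [m2, Finset.mem_insert] at hb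
    rcases ha with rfl | ha
    · rcases hb with hb | hb
      · exact h.pq hb
      · exact h.pB hb
    · rcases hb with rfl | hb
      · exact h.qA ha
      · exact h.d _ ha hb
  · intro v
    rw [hp.mem_iff, List.mem_append, m1, m2]
    simp only [Finset.mem_insert, Finset.mem_union]
    tauto

/-- Weaving the two pieces of a path of `Ff` into a path of `B`. -/
lemma weave (h : Ctx E A B p q X Y) {α₁ α₂ γ₁ γ₂ : List V} (hf : FfL E A X p q α₁ α₂)
    (hne : γ₁ ≠ []) (c1 : γ₁.IsChain E) (c2 : γ₂.IsChain E) (hn : (γ₁ ++ γ₂).Nodup)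
    (hm : ∀ v, v ∈ γ₁ ++ γ₂ ↔ v ∈ B) (j1 : ∀ y ∈ γ₁.head?, E p y)
    (j2 : ∀ y ∈ γ₂.head?, E q y) (hY : ∀ b ∈ (q :: γ₂).getLast?, Y b) :
    Ham E (insert p (insert q (A ∪ B))) X Y := by
  have hq : q ∉ γ₁ ++ γ₂ := fun hq => h.qB ((hm q).1 hq)
  have hpα : p ∉ α₁ ∧ p ∉ α₂ := by
    have hn := hf.nodup
    rw [List.nodup_middle, List.nodup_cons] at hn
    simpa using hn.1
  have hA : ∀ x ∈ α₂, x ∈ A := by
    intro x hx
    have := (hf.mem x).1 (by simp [hx])
    rcases Finset.mem_insert.1 this with rfl | h'
    · exact absurd hx hpα.2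
    · exact h'
  have hB : ∀ x ∈ γ₁, x ∈ B := fun x hx => (hm x).1 (by simp [hx])
  refine assemble h (l := α₁ ++ p :: (γ₁ ++ (α₂ ++ q :: γ₂))) (l₁ := α₁ ++ p :: α₂)
    (l₂ := γ₁ ++ q :: γ₂) ?_ (by simp) hf.nodup ?_ hf.mem ?_ ?_ ?_ ?_
  · rw [List.perm_iff_count]
    intro x
    simp only [List.count_append, List.count_cons]
    ring
  · rw [List.nodup_middle, List.nodup_cons]
    exact ⟨hq, hn⟩
  · intro v
    have := hm v
    simp only [List.mem_append, List.mem_cons, Finset.mem_insert] at this ⊢
    tauto
  · rw [isChain_mid]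
    refine ⟨hf.c1, ?_, hf.j1, ?_⟩
    · rw [List.isChain_append, isChain_mid]
      refine ⟨c1, ⟨hf.c2, c2, hf.hq, j2⟩, ?_⟩
      intro x hx y hy
      have hxB := hB x (List.mem_of_getLast? hx)
      have hyA : y ∈ A := by
        obtain ⟨z, l, hz⟩ := List.exists_cons_of_ne_nil hf.ne
        rw [hz] at hy
        simp only [List.cons_append, List.head?_cons, Option.mem_def, Option.some.injEq] at hy
        subst hy
        exact hA z (by rw [hz]; simp)
      refine h.semi.arc ?_ ?_ ?_ (h.AB y hyA x hxB)
      · simp [hyA]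
      · simp [hxB]
      · rintro rfl
        exact h.d _ hyA hxB
    · intro y hy
      refine j1 y ?_
      obtain ⟨z, l, rfl⟩ := List.exists_cons_of_ne_nil hne
      simpa using hy
  · rw [head_mid]; exact hf.hX
  · intro b hb
    refine hY b ?_
    rw [last_mid] at hb
    rw [show p :: (γ₁ ++ (α₂ ++ q :: γ₂)) = (p :: (γ₁ ++ α₂)) ++ q :: γ₂ by simp] at hb
    rw [last_mid] at hb
    exact hb

/-- Weaving, when `B` is covered by a path starting with `c`. -/
lemma weave2 (h : Ctx E A B p q X Y) {c : V} {γ : List V} (hf : Ff E A X p q)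
    (hc : (c :: γ).IsChain E) (hn : (c :: γ).Nodup) (hm : ∀ v, v ∈ c :: γ ↔ v ∈ B)
    (h1 : E p c) (h2 : Y q ∨ ∃ g ∈ γ, E q g) (hY : ∀ b ∈ (c :: γ).getLast?, Y b) :
    Ham E (insert p (insert q (A ∪ B))) X Y := by
  obtain ⟨α₁, α₂, hf⟩ := (Ff_iff h.pA).1 hf
  rcases h2 with h2 | ⟨g, hg, h2⟩
  · refine weave h hf (γ₁ := c :: γ) (γ₂ := []) (by simp) hc (by simp) (by simpa using hn)
      (by simpa using hm) (by simpa using h1) (by simp) (by simpa using h2)
  · obtain ⟨δ, ε, rfl⟩ := List.append_of_mem hg
    rw [← List.cons_append, isChain_mid] at hc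
    refine weave h hf (γ₁ := c :: δ) (γ₂ := g :: ε) (by simp) hc.1 ?_ (by simpa using hn)
      (by simpa using hm) (by simpa using h1) (by simpa using h2) ?_
    · rw [List.isChain_cons]; exact ⟨hc.2.2.2, hc.2.1⟩
    · rw [← List.cons_append, last_mid] at hY
      rw [List.getLast?_cons_cons]
      exact hY

/-- The forward direction, for a path that visits `p` before `q`. -/
lemma fwd (h : Ctx E A B p q X Y) {α β γ : List V}
    (hc : (α ++ p :: (β ++ q :: γ)).IsChain E) (hn : (α ++ p :: (β ++ q :: γ)).Nodup)
    (hX : ∀ a ∈ (α ++ p :: (β ++ q :: γ)).head?, X a)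
    (hY : ∀ b ∈ (α ++ p :: (β ++ q :: γ)).getLast?, Y b)
    (hl : ∀ v, v ∈ α ++ p :: (β ++ q :: γ) ↔ v ∈ insert p (insert q (A ∪ B))) :
    Ham (E1 E A X p q) (insert p (insert q B)) (X1 E A X p q) Y := by
  rw [isChain_mid, isChain_mid] at hc
  obtain ⟨c1, ⟨c2, c3, c4, c5⟩, c6, c7⟩ := hc
  rw [head_mid] at hX
  rw [last_mid, ← List.cons_append, last_mid] at hY
  have hp : p ∉ α ∧ p ∉ β ∧ p ∉ γ := by
    rw [List.nodup_middle, List.nodup_cons] at hn
    have := hn.1
    simp only [List.mem_append, List.mem_cons, not_or] at this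
    tauto
  have hq : q ∉ α ∧ q ∉ β ∧ q ∉ γ := by
    rw [show α ++ p :: (β ++ q :: γ) = (α ++ p :: β) ++ q :: γ by simp, List.nodup_middle,
      List.nodup_cons] at hn
    have := hn.1
    simp only [List.mem_append, List.mem_cons, not_or] at this
    tauto
  have hm : ∀ x, x ≠ p → x ≠ q → x ∈ α ++ p :: (β ++ q :: γ) → x ∈ A ∨ x ∈ B := by
    intro x h1 h2 hx
    have := (hl x).1 hx
    simp only [Finset.mem_insert, Finset.mem_union] at this
    tauto
  have hα0 : ∀ x ∈ α, x ∈ A ∨ x ∈ B := fun x hx =>
    hm x (fun e => hp.1 (e ▸ hx)) (fun e => hq.1 (e ▸ hx)) (by simp [hx])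
  have hβ0 : ∀ x ∈ β, x ∈ A ∨ x ∈ B := fun x hx =>
    hm x (fun e => hp.2.1 (e ▸ hx)) (fun e => hq.2.1 (e ▸ hx)) (by simp [hx])
  have hγ0 : ∀ x ∈ γ, x ∈ A ∨ x ∈ B := fun x hx =>
    hm x (fun e => hp.2.2 (e ▸ hx)) (fun e => hq.2.2 (e ▸ hx)) (by simp [hx])
  have hα : ∀ x ∈ α, x ∈ A := by
    refine stay h.AB α c1 hα0 fun a ha => ?_
    rcases hα0 a (List.mem_of_head? ha) with h' | h'
    · exact h'
    · refine absurd (hX a ?_) (h.XB a h')
      rcases α with _ | ⟨x, α⟩
      · simp at ha
      · simpa using ha
  have hγ : ∀ x ∈ γ, x ∈ B := by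
    refine stay' h.AB γ c3 hγ0 fun a ha => ?_
    rcases hγ0 a (List.mem_of_getLast? ha) with h' | h'
    · refine absurd (hY a ?_) (h.YA a h')
      rcases γ with _ | ⟨x, γ⟩
      · simp at ha
      · rw [List.getLast?_cons_cons]; exact ha
    · exact h'
  obtain ⟨βB, βA, rfl, hβB, hβA⟩ := splitBA h.AB β c2 hβ0
  have hmemA : ∀ v, v ∈ α ++ p :: βA ↔ v ∈ insert p A := by
    intro v
    simp only [List.mem_append, List.mem_cons, Finset.mem_insert]
    constructor
    · rintro (h' | rfl | h')
      · exact Or.inr (hα v h')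
      · exact Or.inl rfl
      · exact Or.inr (hβA v h')
    · rintro (rfl | h')
      · exact Or.inr (Or.inl rfl)
      · have := (hl v).2 (by simp [h'])
        simp only [List.mem_append, List.mem_cons] at this
        rcases this with h1 | h1 | (h1 | h1) | h1 | h1
        · exact Or.inl h1
        · exact Or.inr (Or.inl h1)
        · exact absurd (hβB v h1) (h.d v h')
        · exact Or.inr (Or.inr h1)
        · exact absurd (h1 ▸ h') h.qA
        · exact absurd (hγ v h1) (h.d v h')
  have hmemB : ∀ v, v ∈ p :: (βB ++ q :: γ) ↔ v ∈ insert p (insert q B) := by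
    intro v
    simp only [List.mem_append, List.mem_cons, Finset.mem_insert]
    constructor
    · rintro (rfl | h' | rfl | h')
      · exact Or.inl rfl
      · exact Or.inr (Or.inr (hβB v h'))
      · exact Or.inr (Or.inl rfl)
      · exact Or.inr (Or.inr (hγ v h'))
    · rintro (rfl | rfl | h')
      · exact Or.inl rfl
      · exact Or.inr (Or.inr (Or.inl rfl))
      · have := (hl v).2 (by simp [h'])
        simp only [List.mem_append, List.mem_cons] at this
        rcases this with h1 | h1 | (h1 | h1) | h1 | h1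
        · exact absurd h' (h.d v (hα v h1))
        · exact Or.inl h1
        · exact Or.inr (Or.inl h1)
        · exact absurd h' (h.d v (hβA v h1))
        · exact Or.inr (Or.inr (Or.inl h1))
        · exact Or.inr (Or.inr (Or.inr h1))
  have hnA : (α ++ p :: βA).Nodup := by
    refine hn.sublist ((List.Sublist.refl α).append (List.Sublist.cons_cons p ?_))
    exact (List.sublist_append_right βB βA).trans (List.sublist_append_left _ _)
  have hnB : (p :: (βB ++ q :: γ)).Nodup := by
    refine hn.sublist (List.Sublist.trans (List.Sublist.cons_cons p ?_)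
      (List.sublist_append_right α _))
    rw [List.append_assoc]
    exact (List.Sublist.refl βB).append (List.sublist_append_right βA _)
  rw [List.isChain_append] at c2
  obtain ⟨cB, cA, cBA⟩ := c2
  -- the general form of the result
  have key : X1 E A X p q p → (∀ x ∈ βB.getLast?, E1 E A X p q x q) →
      (βB = [] → E1 E A X p q p q) →
      Ham (E1 E A X p q) (insert p (insert q B)) (X1 E A X p q) Y := by
    intro k1 k2 k3
    refine ham_iff.2 ⟨p :: (βB ++ q :: γ), by simp, ?_, hnB, by simpa using k1, ?_, hmemB⟩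
    · rw [List.isChain_cons, isChain_mid]
      refine ⟨?_, chain_congr βB (fun x hx y hy h' => (E1_B h (hβB y hy)).2 h') cB,
        chain_congr γ (fun x hx y hy h' => (E1_B h (hγ y hy)).2 h') c3, k2,
        fun y hy => (E1_B h (hγ y (List.mem_of_head? hy))).2 (c5 y hy)⟩
      intro y hy
      rcases βB with _ | ⟨z, βB⟩
      · simp only [List.nil_append, List.head?_cons, Option.mem_def, Option.some.injEq] at hy
        subst hy
        exact k3 rfl
      · simp only [List.cons_append, List.head?_cons, Option.mem_def, Option.some.injEq] at hy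
        subst hy
        exact (E1_B h (hβB z (by simp))).2 (c7 z (by simp))
    · intro b hb
      refine hY b ?_
      rw [← List.cons_append, last_mid] at hb
      exact hb
  rcases eq_or_ne βA [] with rfl | hβA'
  · -- nothing of `A` between `p` and `q`
    have hRr : Rr E A X p := by
      have hα' : α ≠ [] := by
        rintro rfl
        obtain ⟨a, ha⟩ := h.A_ne
        have := (hmemA a).2 (by simp [ha])
        simp only [List.nil_append, List.mem_singleton] at this
        exact h.pA (this ▸ ha)
      refine ham_iff.2 ⟨α, hα', c1, (List.nodup_append.1 hn).1, ?_, c6, ?_⟩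
      · intro a ha
        refine hX a ?_
        rcases α with _ | ⟨x, α⟩
        · simp at ha
        · simpa using ha
      · intro v
        refine ⟨hα v, fun hv => ?_⟩
        have := (hmemA v).2 (by simp [hv])
        simp only [List.mem_append, List.mem_singleton] at this
        rcases this with h' | h'
        · exact h'
        · exact absurd (h' ▸ hv) h.pA
    refine key (Or.inl ⟨rfl, Or.inl hRr⟩) ?_ ?_
    · intro x hx
      refine (E1_Bq h (hβB x (List.mem_of_getLast? hx))).2 (Or.inl (c4 x ?_))
      simpa using hx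
    · rintro rfl
      refine E1_pq.2 (Or.inl ?_)
      refine ham_iff.2 ⟨α ++ [p], by simp, ?_, hnA, hX, ?_, hmemA⟩
      · rw [isChain_mid]
        exact ⟨c1, by simp, c6, by simp⟩
      · intro b hb
        simp only [List.getLast?_append, List.getLast?_singleton, Option.some_or, Option.mem_def,
          Option.some.injEq] at hb
        subst hb
        exact c7 q (by simp)
  · -- something of `A` between `p` and `q`
    have hlast : ∀ b ∈ βA.getLast?, E b q := by
      intro b hb
      refine c4 b ?_
      obtain ⟨z, l, rfl⟩ := List.exists_cons_of_ne_nil hβA'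
      rw [last_mid]; exact hb
    have hFf : Ff E A X p q :=
      (Ff_iff h.pA).2 ⟨α, βA, hβA', hnA, c1, cA, c6, hX, hlast, hmemA⟩
    refine key (Or.inl ⟨rfl, Or.inr hFf⟩) ?_ ?_
    · intro x hx
      exact (E1_Bq h (hβB x (List.mem_of_getLast? hx))).2 (Or.inr hFf)
    · rintro rfl
      refine E1_pq.2 (Or.inl ?_)
      refine ham_iff.2 ⟨α ++ p :: βA, by simp, ?_, hnA, ?_, ?_, hmemA⟩
      · rw [isChain_mid]
        refine ⟨c1, cA, c6, fun y hy => c7 y ?_⟩
        obtain ⟨z, l, rfl⟩ := List.exists_cons_of_ne_nil hβA'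
        simpa using hy
      · rw [head_mid]; exact hX
      · intro b hb
        refine hlast b ?_
        obtain ⟨z, l, rfl⟩ := List.exists_cons_of_ne_nil hβA'
        rw [last_mid, List.getLast?_cons_cons] at hb
        exact hb

/-- The backward direction, for a path starting in `p`. -/
lemma bwd (h : Ctx E A B p q X Y) (hM : M2 E (insert p (insert q (A ∪ B))) X Y) {β γ : List V}
    (hc : (p :: (β ++ q :: γ)).IsChain (E1 E A X p q)) (hn : (p :: (β ++ q :: γ)).Nodup)
    (hX : X1 E A X p q p) (hY : ∀ b ∈ (q :: γ).getLast?, Y b)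
    (hl : ∀ v, v ∈ p :: (β ++ q :: γ) ↔ v ∈ insert p (insert q B)) :
    Ham E (insert p (insert q (A ∪ B))) X Y := by
  rw [List.isChain_cons, isChain_mid] at hc
  obtain ⟨c1, c2, c3, c4, c5⟩ := hc
  rw [List.nodup_cons] at hn
  obtain ⟨hp, hn⟩ := hn
  have hq : q ∉ β ++ γ := by
    rw [List.nodup_middle, List.nodup_cons] at hn
    exact hn.1
  have hn' : (β ++ γ).Nodup := by
    rw [List.nodup_middle, List.nodup_cons] at hn
    exact hn.2
  have hmem : ∀ v, v ∈ β ++ γ ↔ v ∈ B := by
    intro v
    have := hl v
    simp only [List.mem_append, List.mem_cons, Finset.mem_insert] at this hp hq ⊢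
    constructor
    · intro hv
      rcases this.1 (by tauto) with rfl | rfl | h'
      · tauto
      · tauto
      · exact h'
    · intro hv
      rcases this.2 (by tauto) with rfl | h' | rfl | h'
      · exact absurd hv h.pB
      · exact Or.inl h'
      · exact absurd hv h.qB
      · exact Or.inr h'
  have hβ : ∀ x ∈ β, x ∈ B := fun x hx => (hmem x).1 (by simp [hx])
  have hγ : ∀ x ∈ γ, x ∈ B := fun x hx => (hmem x).1 (by simp [hx])
  have hmem2 : ∀ v, v ∈ β ++ q :: γ ↔ v ∈ insert q B := by
    intro v
    have := hmem v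
    simp only [List.mem_append, List.mem_cons, Finset.mem_insert] at this ⊢
    tauto
  have d2 : β.IsChain E := chain_congr β (fun x hx y hy h' => (E1_B h (hβ y hy)).1 h') c2
  have d3 : γ.IsChain E := chain_congr γ (fun x hx y hy h' => (E1_B h (hγ y hy)).1 h') c3
  have d5 : ∀ y ∈ γ.head?, E q y := fun y hy =>
    (E1_B h (hγ y (List.mem_of_head? hy))).1 (c5 y hy)
  have hstart : Rr E A X p ∨ Ff E A X p q := by
    rcases hX with h' | h'
    · exact h'.2
    · exact absurd h'.1 h.pq
  rcases eq_or_ne β [] with rfl | hβ'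
  · -- `p` is followed by `q`
    have hpq : E1 E A X p q p q := c1 q (by simp)
    rw [E1_pq] at hpq
    rcases hpq with hD | ⟨hF1, hF2⟩ | hno
    · obtain ⟨m, m1, m2, m3, m4, m5, m6⟩ := ham_iff.1 hD
      refine assemble h (l := m ++ q :: γ) (l₁ := m) (l₂ := q :: γ) (List.Perm.refl _)
        (by simp) m3 hn m6 hmem2 ?_ ?_ ?_
      · rw [isChain_mid]; exact ⟨m2, d3, m5, d5⟩
      · intro a ha
        refine m4 a ?_
        obtain ⟨z, l, rfl⟩ := List.exists_cons_of_ne_nil m1
        simpa using ha
      · rw [last_mid]; exact hY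
    · -- both covers with two pieces exist
      have hγ' : γ ≠ [] := by
        rintro rfl
        obtain ⟨b, hb⟩ := h.B_ne
        simpa using (hmem b).2 hb
      obtain ⟨c, γ, rfl⟩ := List.exists_cons_of_ne_nil hγ'
      rw [List.getLast?_cons_cons] at hY
      rw [List.nil_append] at hn' hmem
      have hqc : E q c := d5 c (by simp)
      by_cases hcase : Y p ∨ ∃ g ∈ γ, E p g
      · have := weave2 h.symm hF2 d3 hn' hmem hqc hcase hY
        rwa [Finset.insert_comm] at this
      · push Not at hcase
        obtain ⟨hYp, hpg⟩ := hcase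
        have hpB : ∀ g ∈ B, E p g → g = c := by
          intro g hg hpg'
          rcases List.mem_cons.1 ((hmem g).2 hg) with h' | h'
          · exact h'
          · exact absurd hpg' (hpg g h')
        have hcB : c ∈ B := (hmem c).1 (by simp)
        have k1 : Y q ∨ ∃ g ∈ γ, E q g := by
          by_contra hno
          push Not at hno
          obtain ⟨v, hv, hYv⟩ := hM c (by simp [hcB])
          have : v ∈ A ∨ v = p ∨ v = q := by
            clear hYv
            induction hv with
            | base h1 h2 =>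
              rename_i v
              simp only [Finset.mem_erase, Finset.mem_insert, Finset.mem_union] at h1
              rcases h1.2 with h3 | h3 | h3 | h3
              · exact Or.inr (Or.inl h3)
              · exact Or.inr (Or.inr h3)
              · exact Or.inl h3
              · exact absurd h2 (h.XB v h3)
            | step h1 h2 h3 ih =>
              rename_i u v
              simp only [Finset.mem_erase, Finset.mem_insert, Finset.mem_union] at h3
              rcases h3.2 with h4 | h4 | h4 | h4
              · exact Or.inr (Or.inl h4)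
              · exact Or.inr (Or.inr h4)
              · exact Or.inl h4
              · exfalso
                rcases ih with h5 | h5 | h5
                · exact h.AB u h5 v h4 h2
                · rw [h5] at h2; exact h3.1 (hpB v h4 h2)
                · rw [h5] at h2
                  rcases List.mem_cons.1 ((hmem v).2 h4) with h6 | h6
                  · exact h3.1 h6
                  · exact hno.2 v h6 h2
          rcases this with h1 | rfl | rfl
          · exact h.YA v h1 hYv
          · exact hYp hYv
          · exact hno.1 hYv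
        have k2 : E p c := by
          by_contra hno
          obtain ⟨v, hv, hYv⟩ := hM q (by simp)
          have : v ∈ A ∨ v = p := by
            clear hYv
            induction hv with
            | base h1 h2 =>
              rename_i v
              simp only [Finset.mem_erase, Finset.mem_insert, Finset.mem_union] at h1
              rcases h1.2 with h3 | h3 | h3 | h3
              · exact Or.inr h3
              · exact absurd h3 h1.1
              · exact Or.inl h3
              · exact absurd h2 (h.XB v h3)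
            | step h1 h2 h3 ih =>
              rename_i u v
              simp only [Finset.mem_erase, Finset.mem_insert, Finset.mem_union] at h3
              rcases h3.2 with h4 | h4 | h4 | h4
              · exact Or.inr h4
              · exact absurd h4 h3.1
              · exact Or.inl h4
              · exfalso
                rcases ih with h5 | h5
                · exact h.AB u h5 v h4 h2
                · rw [h5] at h2
                  exact hno (hpB v h4 h2 ▸ h2)
          rcases this with h1 | rfl
          · exact h.YA v h1 hYv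
          · exact hYp hYv
        exact weave2 h hF1 d3 hn' hmem k2 k1 hY
    · exact absurd hstart hno
  · -- something of `B` between `p` and `q`
    have d1 : ∀ y ∈ β.head?, E p y := by
      intro y hy
      refine (E1_B h (hβ y (List.mem_of_head? hy))).1 (c1 y ?_)
      obtain ⟨z, l, rfl⟩ := List.exists_cons_of_ne_nil hβ'
      simpa using hy
    by_cases hF : Ff E A X p q
    · obtain ⟨α₁, α₂, hf⟩ := (Ff_iff h.pA).1 hF
      exact weave h hf hβ' d2 d3 hn' hmem d1 d5 hY
    · have hR : Rr E A X p := hstart.resolve_right hF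
      obtain ⟨m, m1, m2, m3, m4, m5, m6⟩ := ham_iff.1 hR
      refine assemble h (l := m ++ p :: (β ++ q :: γ)) (l₁ := m ++ [p]) (l₂ := β ++ q :: γ)
        (by simp) (by simp) ?_ hn ?_ hmem2 ?_ ?_ ?_
      · rw [List.nodup_middle, List.nodup_cons, List.append_nil]
        exact ⟨fun h' => h.pA ((m6 p).1 h'), m3⟩
      · intro v
        simp only [List.mem_append, List.mem_singleton, Finset.mem_insert, m6]
        tauto
      · rw [isChain_mid, isChain_mid]
        refine ⟨m2, ⟨d2, d3, ?_, d5⟩, m5, ?_⟩
        · intro x hx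
          exact ((E1_Bq h (hβ x (List.mem_of_getLast? hx))).1 (c4 x hx)).resolve_right hF
        · intro y hy
          refine d1 y ?_
          obtain ⟨z, l, rfl⟩ := List.exists_cons_of_ne_nil hβ'
          simpa using hy
      · intro a ha
        refine m4 a ?_
        obtain ⟨z, l, rfl⟩ := List.exists_cons_of_ne_nil m1
        simpa using ha
      · rw [last_mid, ← List.cons_append, last_mid]
        exact hY

/-- The pair `p, q` in the new digraph. -/
lemma pair_arc (h : Ctx E A B p q X Y) : E1 E A X p q p q ∨ E1 E A X p q q p := by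
  -- the key case
  have key : ∀ {p q : V}, Ctx E A B p q X Y → Rr E A X p → (Rr E A X q ∨ Ff E A X q p) →
      Dd E A X p q ∨ Dd E A X q p := by
    intro p q h hR hq
    have end1 : ∀ {p q : V}, Ctx E A B p q X Y → Rr E A X p → E p q → Dd E A X p q := by
      intro p q h hR hE
      obtain ⟨m, m1, m2, m3, m4, m5, m6⟩ := ham_iff.1 hR
      refine ham_iff.2 ⟨m ++ [p], by simp, ?_, ?_, ?_, ?_, ?_⟩
      · rw [isChain_mid]; exact ⟨m2, by simp, m5, by simp⟩
      · rw [List.nodup_middle, List.nodup_cons, List.append_nil]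
        exact ⟨fun h' => h.pA ((m6 p).1 h'), m3⟩
      · intro a ha
        refine m4 a ?_
        obtain ⟨z, l, rfl⟩ := List.exists_cons_of_ne_nil m1
        simpa using ha
      · intro b hb
        simp only [List.getLast?_append, List.getLast?_singleton, Option.some_or, Option.mem_def,
          Option.some.injEq] at hb
        subst hb
        exact hE
      · intro v
        simp only [List.mem_append, List.mem_singleton, Finset.mem_insert, m6]
        tauto
    rcases h.semi p (by simp) q (by simp) h.pq with hE | hE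
    · exact Or.inl (end1 h hR hE)
    · right
      rcases hq with hq | hq
      · exact end1 h.symm hq hE
      · obtain ⟨a, b, m, hm, hXa, hbp, m6⟩ := hR
        have hqm : q ∉ m := fun h' => h.qA ((m6 q).1 h')
        have hsc : ∀ w ∈ m, E w q ∨ E q w := by
          intro w hw
          have hwA := (m6 w).1 hw
          refine h.semi w (by simp [hwA]) q (by simp) ?_
          rintro rfl
          exact h.qA hwA
        by_cases hex : ∃ v ∈ m, E v q
        · rcases hm.ins_a hqm hsc hex with h1 | ⟨l', h1, h2⟩
          · refine ⟨a, q, m ++ [q], hm.concat h1 hqm, hXa, hE, ?_⟩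
            intro v
            simp only [List.mem_append, List.mem_singleton, Finset.mem_insert, m6]
            tauto
          · refine ⟨a, b, l', h1, hXa, hbp, ?_⟩
            intro v
            rw [h2.mem_iff, List.mem_cons, m6, Finset.mem_insert]
        · push Not at hex
          obtain ⟨α₁, α₂, hf⟩ := (Ff_iff h.qA).1 hq
          have hα : α₁ = [] := by
            rcases hl : α₁.getLast? with _ | x
            · exact List.getLast?_eq_none_iff.1 hl
            · exfalso
              have h1 := hf.j1 x (by rw [hl]; rfl)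
              have hx : x ∈ α₁ := List.mem_of_getLast? (by rw [hl])
              have hxq : x ≠ q := by
                rintro rfl
                have hn := hf.nodup
                rw [List.nodup_middle, List.nodup_cons] at hn
                exact hn.1 (by simp [hx])
              have hxA : x ∈ A := by
                have := (hf.mem x).1 (by simp [hx])
                exact (Finset.mem_insert.1 this).resolve_left hxq
              exact hex x ((m6 x).2 hxA) h1
          have hXq : X q := by
            subst hα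
            exact hf.hX q (by simp)
          have hqa : E q a := (hsc a hm.mem_head).resolve_left (hex a hm.mem_head)
          refine ⟨q, b, q :: m, hm.cons hqa hqm, hXq, hbp, ?_⟩
          intro v
          rw [List.mem_cons, m6, Finset.mem_insert]
  have e : E1 E A X p q q p ↔
      Dd E A X q p ∨ (Ff E A X q p ∧ Ff E A X p q) ∨ ¬ (Rr E A X q ∨ Ff E A X q p) := by
    rw [E1_symm h.pq]; exact E1_pq
  rw [E1_pq, e]
  by_cases s1 : Rr E A X p ∨ Ff E A X p q
  · by_cases s2 : Rr E A X q ∨ Ff E A X q p
    · by_cases hb : Ff E A X p q ∧ Ff E A X q p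
      · exact Or.inl (Or.inr (Or.inl hb))
      · rcases not_and_or.1 hb with hb | hb
        · rcases key h (s1.resolve_right hb) s2 with h' | h'
          · exact Or.inl (Or.inl h')
          · exact Or.inr (Or.inl h')
        · rcases key h.symm (s2.resolve_right hb) s1 with h' | h'
          · exact Or.inr (Or.inl h')
          · exact Or.inl (Or.inl h')
    · exact Or.inr (Or.inr (Or.inr s2))
  · exact Or.inl (Or.inr (Or.inr s1))

theorem split2 : Split2 := by
  intro V _ E A B u v X Y huv huA huB hvA hvB hd hA hB hAB hXB hYA hS hM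
  rw [Finset.disjoint_left] at hd
  have h : Ctx E A B u v X Y := ⟨huv, huA, huB, hvA, hvB, fun x hx => hd hx, hA, hB, hAB, hXB,
    hYA, hS⟩
  refine ⟨?_, ?_, ?_⟩
  · intro x hx y hy hxy
    by_cases h1 : x = u ∧ y = v
    · obtain ⟨rfl, rfl⟩ := h1
      exact pair_arc h
    by_cases h2 : x = v ∧ y = u
    · obtain ⟨rfl, rfl⟩ := h2
      exact (pair_arc h).symm
    have hx' : x ∈ insert u (insert v (A ∪ B)) := by
      simp only [Finset.mem_insert, Finset.mem_union] at hx ⊢; tauto
    have hy' : y ∈ insert u (insert v (A ∪ B)) := by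
      simp only [Finset.mem_insert, Finset.mem_union] at hy ⊢; tauto
    rcases hS x hx' y hy' hxy with h3 | h3
    · exact Or.inl (E1_of h3 h1 h2)
    · exact Or.inr (E1_of h3 (fun h' => h2 ⟨h'.2, h'.1⟩) (fun h' => h1 ⟨h'.2, h'.1⟩))
  · intro hH
    obtain ⟨l, hne, hc, hn, hX, hY, hl⟩ := ham_iff.1 hH
    obtain ⟨l₁, l₂, rfl⟩ := List.append_of_mem ((hl u).2 (by simp))
    have hv := (hl v).2 (by simp)
    simp only [List.mem_append, List.mem_cons] at hv
    rcases hv with hv | hv | hv
    · obtain ⟨α, β, rfl⟩ := List.append_of_mem hv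
      rw [List.append_assoc, List.cons_append] at hc hn hX hY hl
      have := fwd h.symm hc hn hX hY (by rw [Finset.insert_comm]; exact hl)
      rw [E1_symm huv, X1_symm, Finset.insert_comm]
      exact this
    · exact absurd hv.symm huv
    · obtain ⟨β, γ, rfl⟩ := List.append_of_mem hv
      exact fwd h hc hn hX hY hl
  · intro hH
    obtain ⟨l, hne, hc, hn, hX, hY, hl⟩ := ham_iff.1 hH
    obtain ⟨p, l, rfl⟩ := List.exists_cons_of_ne_nil hne
    have hXp : X1 E A X u v p := hX p (by simp)
    have hp : p = u ∨ p = v := by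
      rcases hXp with h' | h'
      · exact Or.inl h'.1
      · exact Or.inr h'.1
    rcases hp with rfl | rfl
    · have hv := (hl v).2 (by simp)
      rcases List.mem_cons.1 hv with hv | hv
      · exact absurd hv.symm huv
      · obtain ⟨β, γ, rfl⟩ := List.append_of_mem hv
        refine bwd h hM hc hn hXp ?_ hl
        rw [← List.cons_append, last_mid] at hY
        exact hY
    · have hu := (hl u).2 (by simp)
      rcases List.mem_cons.1 hu with hu | hu
      · exact absurd hu huv
      · obtain ⟨β, γ, rfl⟩ := List.append_of_mem hu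
        rw [E1_symm huv] at hc
        rw [X1_symm] at hXp
        rw [Finset.insert_comm] at hl hM ⊢
        refine bwd h.symm hM hc hn hXp ?_ hl
        rw [← List.cons_append, last_mid] at hY
        exact hY

end Pool.Agent.Lib88.HamSplit
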