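import Pool.Agent.Lib_helper88.HamSplit.Split1
import Pool.Agent.Lib_helper53.HamBase.Menger

/-!
# The pair lemma
-/

namespace Pool.Agent.Lib88.HamSplit

open List Pool.Agent.Lib53.HamBase Pool.Agent.Lib54.HP

variable {V : Type*} {E : V → V → Prop} {S : Finset V} {X Y : V → Prop}

/-- Every proper nonempty subset is entered by an arc. -/
def Strong (E : V → V → Prop) (S : Finset V) : Prop :=
  ∀ C ⊆ S, C.Nonempty → C ≠ S → ∃ u ∈ S, u ∉ C ∧ ∃ c ∈ C, E u c

lemma Strong.out (h : Strong E S) {C : Finset V} (hC : C ⊆ S) (hne : C.Nonempty) (hS : C ≠ S) :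
    ∃ c ∈ C, ∃ u ∈ S, u ∉ C ∧ E c u := by
  classical
  have h1 : (S \ C).Nonempty := by
    rw [Finset.sdiff_nonempty]
    exact fun h' => hS (Finset.Subset.antisymm hC h')
  have h2 : S \ C ≠ S := by
    intro h'
    obtain ⟨c, hc⟩ := hne
    have : c ∈ S \ C := by rw [h']; exact hC hc
    exact (Finset.mem_sdiff.1 this).2 hc
  obtain ⟨u, hu, huC, c, hc, huc⟩ := h _ Finset.sdiff_subset h1 h2
  rw [Finset.mem_sdiff] at hc
  refine ⟨u, ?_, c, hc.1, hc.2, huc⟩
  by_contra h'
  exact huC (Finset.mem_sdiff.2 ⟨hu, h'⟩)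

lemma Ham.append [DecidableEq V] {S₁ S₂ : Finset V} {P Q : V → Prop} (h₁ : Ham E S₁ X P)
    (h₂ : Ham E S₂ Q Y) (hd : ∀ v ∈ S₁, v ∉ S₂)
    (hPQ : ∀ p ∈ S₁, P p → ∀ q ∈ S₂, Q q → E p q) : Ham E (S₁ ∪ S₂) X Y := by
  obtain ⟨a, b, l, h1, ha, hb, hl⟩ := h₁
  obtain ⟨c, d, m, h2, hc, hd', hm⟩ := h₂
  refine ⟨a, d, l ++ m, h1.append h2 (hPQ b ((hl b).1 h1.mem_last) hb c
    ((hm c).1 h2.mem_head) hc) ?_, ha, hd', ?_⟩
  · intro v hv hv'
    exact hd v ((hl v).1 hv) ((hm v).1 hv')
  · intro v
    rw [List.mem_append, hl, hm, Finset.mem_union]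

lemma Ham.single {x : V} (hX : X x) (hY : Y x) : Ham E {x} X Y :=
  ⟨x, x, [x], Pth.single E x, hX, hY, by simp⟩

lemma Ham.prepend [DecidableEq V] {x : V} (h : Ham E (S.erase x) (E x) Y) (hx : x ∈ S)
    (hX : X x) : Ham E S X Y := by
  have := Ham.append (Ham.single (E := E) (Y := fun z => z = x) hX rfl) h
    (by simp) (by rintro p hp rfl q hq hq'; exact hq')
  rwa [← Finset.insert_eq, Finset.insert_erase hx] at this

lemma Ham.postpend [DecidableEq V] {x : V} (h : Ham E (S.erase x) X (fun z => E z x))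
    (hx : x ∈ S) (hY : Y x) : Ham E S X Y := by
  have := Ham.append h (Ham.single (E := E) (X := fun z => z = x) rfl hY)
    (by intro v hv; simp only [Finset.mem_singleton]; rintro rfl; simp at hv)
    (by rintro p hp hp' q hq rfl; exact hp')
  rwa [Finset.union_comm, ← Finset.insert_eq, Finset.insert_erase hx] at this

/-- **Nonstrong digraphs.** -/
lemma ham_of_not_strong (hS : Semi E S) (hX : ReachFrom E S X) (hY : ReachTo E S Y)
    (h : ¬ Strong E S) : Ham E S X Y := by
  classical
  unfold Strong at h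
  push Not at h
  obtain ⟨C, hC, hne, hCS, h⟩ := h
  have h1 : (S \ C).Nonempty := by
    rw [Finset.sdiff_nonempty]
    exact fun h' => hCS (Finset.Subset.antisymm hC h')
  have hA : Ham E C X fun _ => True := by
    refine partition hne (hS.mono hC) (fun _ _ => Or.inr trivial) ?_ ?_
    · intro D hD hDne
      rcases hX D (hD.trans hC) hDne with h' | ⟨u, hu, huD, c, hc, huc⟩
      · exact Or.inl h'
      · refine Or.inr ⟨u, ?_, huD, c, hc, huc⟩
        by_contra h'
        exact h u hu h' c (hD hc) huc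
    · rintro D hD ⟨c, hc⟩
      exact Or.inl ⟨c, hc, trivial⟩
  have hB : Ham E (S \ C) (fun _ => True) Y := by
    refine partition h1 (hS.mono Finset.sdiff_subset) (fun _ _ => Or.inl trivial) ?_ ?_
    · rintro D hD ⟨c, hc⟩
      exact Or.inl ⟨c, hc, trivial⟩
    · intro D hD hDne
      rcases hY D (hD.trans Finset.sdiff_subset) hDne with h' | ⟨c, hc, u, hu, huD, hcu⟩
      · exact Or.inl h'
      · refine Or.inr ⟨c, hc, u, ?_, huD, hcu⟩
        rw [Finset.mem_sdiff]
        refine ⟨hu, fun h' => ?_⟩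
        have := Finset.mem_sdiff.1 (hD hc)
        exact h c this.1 this.2 u h' hcu
  have := Ham.append hA hB (by intro v hv; simp [hv]) (by
    intro p hp _ q hq _
    rw [Finset.mem_sdiff] at hq
    exact hS.arc hq.1 (hC hp) (fun e => hq.2 (e ▸ hp)) (h q hq.1 hq.2 p hp))
  rwa [Finset.union_sdiff_of_subset hC] at this

/-- A hamiltonian cycle, as a list. -/
structure Cyc (E : V → V → Prop) (D : Finset V) (l : List V) : Prop where
  chain : l.IsChain E
  nodup : l.Nodup
  mem : ∀ v, v ∈ l ↔ v ∈ D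
  join : ∀ z ∈ l.getLast?, ∀ x ∈ l.head?, E z x

lemma Cyc.rotate {D : Finset V} {l₁ l₂ : List V} (h : Cyc E D (l₁ ++ l₂)) :
    Cyc E D (l₂ ++ l₁) := by
  rcases eq_or_ne l₁ [] with rfl | h1
  · simpa using h
  rcases eq_or_ne l₂ [] with rfl | h2
  · simpa using h
  obtain ⟨a, l₁, rfl⟩ := List.exists_cons_of_ne_nil h1
  obtain ⟨b, l₂, rfl⟩ := List.exists_cons_of_ne_nil h2
  obtain ⟨c, n, j⟩ := List.isChain_append.1 h.chain
  refine ⟨List.isChain_append.2 ⟨n, c, ?_⟩, ?_, ?_, ?_⟩
  · intro x hx y hy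
    refine h.join x ?_ y ?_
    · rw [List.getLast?_append]
      rw [Option.mem_def] at hx ⊢
      rw [hx]; rfl
    · simpa using hy
  · exact List.perm_append_comm.nodup h.nodup
  · intro v
    rw [← h.mem, List.mem_append, List.mem_append, or_comm]
  · intro z hz x hx
    refine j z ?_ x ?_
    · rw [List.getLast?_append] at hz
      rw [Option.mem_def] at hz ⊢
      rw [List.getLast?_cons] at hz ⊢
      simpa using hz
    · simpa using hx

lemma Cyc.head {D : Finset V} {l : List V} (h : Cyc E D l) {x : V} (hx : x ∈ D) :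
    ∃ t, Cyc E D (x :: t) := by
  obtain ⟨l₁, l₂, rfl⟩ := List.append_of_mem ((h.mem x).2 hx)
  exact ⟨l₂ ++ l₁, h.rotate⟩

lemma Cyc.around_aux {D : Finset V} {Q : V → Prop}
    (hQ : ∀ l, Cyc E D l → ∀ x ∈ l.head?, ∀ z ∈ l.getLast?, Q x → Q z) :
    ∀ (l₂ l₁ : List V), Cyc E D (l₁ ++ l₂) → (∀ x ∈ (l₁ ++ l₂).head?, Q x) →
      ∀ v ∈ l₂, Q v := by
  intro l₂
  induction l₂ with
  | nil => simp
  | cons u l₂ ih =>
    intro l₁ h hh v hv
    have h1 : ∀ v ∈ l₂, Q v := by
      refine ih (l₁ ++ [u]) ?_ ?_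
      · simpa using h
      · simpa using hh
    rcases List.mem_cons.1 hv with rfl | hv
    · have h2 : Cyc E D ((l₁ ++ [v]) ++ l₂) := by simpa using h
      rcases eq_or_ne l₂ [] with rfl | hne
      · rcases l₁ with _ | ⟨x, l₁⟩
        · exact hh v (by simp)
        · exact hQ _ h x (by simp) v (by rw [List.getLast?_append]; simp) (hh x (by simp))
      · obtain ⟨y, l₂, rfl⟩ := List.exists_cons_of_ne_nil hne
        refine hQ _ h2.rotate y (by simp) v ?_ (h1 y (by simp))
        rw [← List.append_assoc, List.getLast?_append]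
        simp
    · exact h1 v hv

lemma Cyc.around {D : Finset V} {Q : V → Prop}
    (hQ : ∀ l, Cyc E D l → ∀ x ∈ l.head?, ∀ z ∈ l.getLast?, Q x → Q z) {l : List V}
    (h : Cyc E D l) {x : V} (hx : x ∈ D) (hQx : Q x) : ∀ z ∈ D, Q z := by
  obtain ⟨t, ht⟩ := h.head hx
  intro z hz
  exact Cyc.around_aux hQ (x :: t) [] ht (by simpa using hQx) z ((ht.mem z).2 hz)

/-- **Camion's theorem.** -/
lemma exists_cyc {D : Finset V} (hD : Semi E D) (hs : Strong E D) (h2 : 2 ≤ D.card) :
    ∃ l, Cyc E D l := by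
  classical
  obtain ⟨v, hv⟩ : D.Nonempty := Finset.card_pos.1 (by omega)
  have hne : (D.erase v).Nonempty := by
    rw [← Finset.card_pos, Finset.card_erase_of_mem hv]; omega
  have hH : Ham E (D.erase v) (E v) fun z => E z v := by
    refine partition hne (hD.mono (Finset.erase_subset _ _)) ?_ ?_ ?_
    · intro u hu
      rw [Finset.mem_erase] at hu
      exact hD v hv u hu.2 hu.1.symm
    · intro C hC hCne
      obtain ⟨u, hu, huC, c, hc, huc⟩ := hs C (hC.trans (Finset.erase_subset _ _)) hCne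
        (fun h => by rw [h] at hC; exact (Finset.mem_erase.1 (hC hv)).1 rfl)
      by_cases huv : u = v
      · subst huv; exact Or.inl ⟨c, hc, huc⟩
      · exact Or.inr ⟨u, Finset.mem_erase.2 ⟨huv, hu⟩, huC, c, hc, huc⟩
    · intro C hC hCne
      obtain ⟨c, hc, u, hu, huC, hcu⟩ := hs.out (hC.trans (Finset.erase_subset _ _)) hCne
        (fun h => by rw [h] at hC; exact (Finset.mem_erase.1 (hC hv)).1 rfl)
      by_cases huv : u = v
      · subst huv; exact Or.inl ⟨c, hc, hcu⟩
      · exact Or.inr ⟨c, hc, u, Finset.mem_erase.2 ⟨huv, hu⟩, huC, hcu⟩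
  obtain ⟨a, b, l, hp, ha, hb, hl⟩ := hH
  have hvl : v ∉ l := fun h => by simpa using (hl v).1 h
  refine ⟨v :: l, (hp.cons ha hvl).chain, (hp.cons ha hvl).nodup, ?_, ?_⟩
  · intro u
    rw [List.mem_cons, hl, Finset.mem_erase]
    by_cases h : u = v
    · simp [h, hv]
    · simp [h]
  · intro z hz x hx
    have := (hp.cons ha hvl).last
    rw [Option.mem_def, this] at hz
    simp only [Option.some.injEq, List.head?_cons, Option.mem_def] at hz hx
    subst hz hx
    exact hb

/-- Reachability from and to neighbours. -/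
lemma reachFrom_erase [DecidableEq V] {T : Finset V} {a : V} (hs : Strong E T) (ha : a ∈ T) :
    ReachFrom E (T.erase a) (E a) := by
  intro C hC hCne
  obtain ⟨u, hu, huC, c, hc, huc⟩ := hs C (hC.trans (Finset.erase_subset _ _)) hCne
    (fun h => by rw [h] at hC; exact (Finset.mem_erase.1 (hC ha)).1 rfl)
  by_cases huv : u = a
  · subst huv; exact Or.inl ⟨c, hc, huc⟩
  · exact Or.inr ⟨u, Finset.mem_erase.2 ⟨huv, hu⟩, huC, c, hc, huc⟩

lemma reachTo_erase [DecidableEq V] {T : Finset V} {a : V} (hs : Strong E T) (ha : a ∈ T) :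
    ReachTo E (T.erase a) (fun z => E z a) := by
  intro C hC hCne
  obtain ⟨c, hc, u, hu, huC, hcu⟩ := hs.out (hC.trans (Finset.erase_subset _ _)) hCne
    (fun h => by rw [h] at hC; exact (Finset.mem_erase.1 (hC ha)).1 rfl)
  by_cases huv : u = a
  · subst huv; exact Or.inl ⟨c, hc, hcu⟩
  · exact Or.inr ⟨c, hc, u, Finset.mem_erase.2 ⟨huv, hu⟩, huC, hcu⟩

/-- Three vertices in `X` and in `Y`. -/
lemma ham_of_three_mem {D : Finset V} (hD : Semi E D) (hX : ReachFrom E D X)
    (hY : ReachTo E D Y) (h : ∃ T ⊆ D, 3 ≤ T.card ∧ ∀ t ∈ T, X t ∧ Y t) : Ham E D X Y := by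
  classical
  obtain ⟨T, hT, h3, hXY⟩ := h
  obtain ⟨T', hT', h3'⟩ := Finset.exists_subset_card_eq h3
  let e := T'.equivFinOfCardEq h3'
  have he : ∀ i, ((e.symm i : T') : V) ∈ T := fun i => hT' (e.symm i).2
  refine ham_of_three (P := fun i => [((e.symm i : T') : V)]) hD hX hY ⟨fun i => ?_, ?_⟩
  · exact ⟨⟨_, _, Pth.single E _, (hXY _ (he i)).1, (hXY _ (he i)).2⟩,
      by simpa using hT (he i)⟩
  · intro i j hij v hv hv'
    rw [List.mem_singleton] at hv hv'
    exact hij (e.symm.injective (Subtype.ext (hv.symm.trans hv')))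

/-- The pair lemma, when the rest is strong. -/
lemma pair_core [DecidableEq V] {a b : V} {D : Finset V} (hab : a ≠ b) (ha : a ∉ D)
    (hb : b ∉ D) (hS : Semi E (insert a (insert b D))) (hD : Strong E D) (h2 : 2 ≤ D.card)
    (c1 : ReachFrom E D (E a)) (c2 : ReachTo E D fun z => E z b)
    (c3 : ReachFrom E D (E b)) (c4 : ReachTo E D fun z => E z a)
    (hXa : X a) (hXb : X b) (hYa : Y a) (hYb : Y b)
    (h : (∃ c ∈ D, X c ∨ Y c) ∨ 5 ≤ D.card) : Ham E (insert a (insert b D)) X Y := by
  have hDsub : D ⊆ insert a (insert b D) := fun x hx => by simp [hx]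
  have hSD : Semi E D := hS.mono hDsub
  have hne : D.Nonempty := Finset.card_pos.1 (by omega)
  have sa : ∀ x ∈ D, E a x ∨ E x a := fun x hx =>
    hS a (by simp) x (by simp [hx]) (fun e => ha (e ▸ hx))
  have sb : ∀ x ∈ D, E b x ∨ E x b := fun x hx =>
    hS b (by simp) x (by simp [hx]) (fun e => hb (e ▸ hx))
  by_contra hcon
  -- assembling
  have asm : ∀ l : List V, l.IsChain E → l ~ a :: b :: D.toList → (∀ x ∈ l.head?, X x) →
      (∀ x ∈ l.getLast?, Y x) → False := by
    intro l hl hp hX hY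
    refine hcon (ham_iff.2 ⟨l, ?_, hl, ?_, hX, hY, ?_⟩)
    · rintro rfl
      simpa using hp.length_eq
    · refine hp.symm.nodup ?_
      simp [hab, ha, hb, D.nodup_toList]
    · intro v
      rw [hp.mem_iff]
      simp
  have permD : ∀ {l : List V}, Cyc E D l → l ~ D.toList := by
    intro l hl
    rw [List.perm_ext_iff_of_nodup hl.nodup D.nodup_toList]
    intro v
    rw [hl.mem, Finset.mem_toList]
  have P1 : ¬ Ham E D (E a) fun z => E z b := by
    intro hH
    obtain ⟨l, hne, hc, hn, hX, hY, hl⟩ := ham_iff.1 hH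
    have hp : l ~ D.toList := by
      rw [List.perm_ext_iff_of_nodup hn D.nodup_toList]
      intro v
      rw [hl, Finset.mem_toList]
    refine asm (a :: (l ++ [b])) ?_ ?_ (by simpa using hXa) ?_
    · rw [List.isChain_cons, isChain_mid]
      refine ⟨?_, hc, by simp, hY, by simp⟩
      obtain ⟨x, l, rfl⟩ := List.exists_cons_of_ne_nil hne
      simpa using hX
    · refine List.Perm.cons a ?_
      exact (List.perm_append_singleton b l).trans (List.Perm.cons b hp)
    · rw [← List.cons_append, List.getLast?_append]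
      simpa using hYb
  have P2 : ¬ Ham E D (E b) fun z => E z a := by
    intro hH
    obtain ⟨l, hne, hc, hn, hX, hY, hl⟩ := ham_iff.1 hH
    have hp : l ~ D.toList := by
      rw [List.perm_ext_iff_of_nodup hn D.nodup_toList]
      intro v
      rw [hl, Finset.mem_toList]
    refine asm (b :: (l ++ [a])) ?_ ?_ (by simpa using hXb) ?_
    · rw [List.isChain_cons, isChain_mid]
      refine ⟨?_, hc, by simp, hY, by simp⟩
      obtain ⟨x, l, rfl⟩ := List.exists_cons_of_ne_nil hne
      simpa using hX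
    · refine List.Perm.trans ?_ (List.Perm.swap a b _)
      refine List.Perm.cons b ?_
      exact (List.perm_append_singleton a l).trans (List.Perm.cons a hp)
    · rw [← List.cons_append, List.getLast?_append]
      simpa using hYa
  have cycHam : ∀ {l : List V} {P Q : V → Prop}, Cyc E D l → (∀ x ∈ l.head?, P x) →
      (∀ z ∈ l.getLast?, Q z) → Ham E D P Q := by
    intro l P Q hl hP hQ
    refine ham_iff.2 ⟨l, ?_, hl.chain, hl.nodup, hP, hQ, hl.mem⟩
    rintro rfl
    obtain ⟨x, hx⟩ := hne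
    simpa using (hl.mem x).2 hx
  have h1 : ∀ l, Cyc E D l → ∀ x ∈ l.head?, ∀ z ∈ l.getLast?, E a x → ¬ E z b := by
    intro l hl x hx z hz hax hzb
    refine P1 (cycHam hl (fun x' hx' => ?_) fun z' hz' => ?_)
    · rw [Option.mem_unique hx' hx]; exact hax
    · rw [Option.mem_unique hz' hz]; exact hzb
  have h1' : ∀ l, Cyc E D l → ∀ x ∈ l.head?, ∀ z ∈ l.getLast?, E b x → ¬ E z a := by
    intro l hl x hx z hz hax hzb
    refine P2 (cycHam hl (fun x' hx' => ?_) fun z' hz' => ?_)
    · rw [Option.mem_unique hx' hx]; exact hax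
    · rw [Option.mem_unique hz' hz]; exact hzb
  have hmh : ∀ {l : List V}, Cyc E D l → ∀ x ∈ l.head?, x ∈ D := fun hl x hx =>
    (hl.mem x).1 (List.mem_of_head? hx)
  have hml : ∀ {l : List V}, Cyc E D l → ∀ x ∈ l.getLast?, x ∈ D := fun hl x hx =>
    (hl.mem x).1 (List.mem_of_getLast? hx)
  obtain ⟨l₀, hl₀⟩ := exists_cyc hSD hD h2
  -- predecessor
  have hpred : ∀ z ∈ D, ∃ l x, Cyc E D l ∧ x ∈ l.head? ∧ z ∈ l.getLast? := by
    intro z hz
    obtain ⟨t, ht⟩ := hl₀.head hz
    have ht' : Cyc E D (t ++ [z]) := (show Cyc E D ([z] ++ t) from ht).rotate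
    rcases t with _ | ⟨x, t⟩
    · exact ⟨_, z, ht', by simp, by simp⟩
    · exact ⟨_, x, ht', by simp, by rw [List.getLast?_append]; simp⟩
  have hsucc : ∀ x ∈ D, ∃ l z, Cyc E D l ∧ x ∈ l.head? ∧ z ∈ l.getLast? := by
    intro x hx
    obtain ⟨t, ht⟩ := hl₀.head hx
    exact ⟨_, (x :: t).getLast (by simp), ht, by simp, List.getLast?_eq_getLast_of_ne_nil _⟩
  have nb : ∀ x ∈ D, ¬ (E a x ∧ E b x) := by
    intro x hx hQ
    have hall := Cyc.around (Q := fun x => E a x ∧ E b x) (E := E) (D := D) (by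
      intro l hl x hx z hz hQ
      have hzD := hml hl z hz
      exact ⟨(sa z hzD).resolve_right (h1' l hl x hx z hz hQ.2),
        (sb z hzD).resolve_right (h1 l hl x hx z hz hQ.1)⟩) hl₀ hx hQ
    rcases c4 D subset_rfl hne with ⟨w, hw, hwa⟩ | ⟨w, hw, u, hu, hu', -⟩
    · obtain ⟨l, x, hl, hx, hz⟩ := hpred w hw
      exact h1' l hl x hx w hz (hall x (hmh hl x hx)).2 hwa
    · exact hu' hu
  have nn : ∀ x ∈ D, ¬ (E x a ∧ E x b) := by
    intro x hx hQ
    have hall : ∀ z ∈ D, E z a ∧ E z b := by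
      by_contra hno
      push Not at hno
      obtain ⟨z, hz, hno⟩ := hno
      have := Cyc.around (Q := fun x => ¬ (E x a ∧ E x b)) (E := E) (D := D) (by
        intro l hl x hx z hz hQ hz'
        refine hQ ?_
        have hxD := hmh hl x hx
        refine ⟨(sa x hxD).resolve_left fun h' => h1 l hl x hx z hz h' hz'.2,
          (sb x hxD).resolve_left fun h' => h1' l hl x hx z hz h' hz'.1⟩) hl₀ hz (fun h' => hno h'.1 h'.2)
      exact this x hx hQ
    rcases c1 D subset_rfl hne with ⟨w, hw, haw⟩ | ⟨u, hu, hu', -⟩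
    · obtain ⟨l, z, hl, hx, hz⟩ := hsucc w hw
      exact h1 l hl w hx z hz haw (hall z (hml hl z hz)).2
    · exact hu' hu
  -- the two types
  have typ : ∀ x ∈ D, (E a x ∧ ¬ E x a ∧ E x b ∧ ¬ E b x) ∨
      (E b x ∧ ¬ E x b ∧ E x a ∧ ¬ E a x) := by
    intro x hx
    have t1 := sa x hx
    have t2 := sb x hx
    have t3 := nb x hx
    have t4 := nn x hx
    tauto
  -- a neighbouring vertex of the cycle has the other type
  have alt1 : ∀ l, Cyc E D l → ∀ x ∈ l.head?, ∀ z ∈ l.getLast?, (E a x ↔ E b z) := by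
    intro l hl x hx z hz
    have t1 := typ x (hmh hl x hx)
    have t2 := typ z (hml hl z hz)
    have t3 := h1 l hl x hx z hz
    have t4 := h1' l hl x hx z hz
    tauto
  rcases h with ⟨c, hc, hXY⟩ | h5
  · obtain ⟨t, ht⟩ := hl₀.head hc
    have ht' : Cyc E D (t ++ [c]) := (show Cyc E D ([c] ++ t) from ht).rotate
    have htne : t ≠ [] := by
      rintro rfl
      have := (permD ht).length_eq
      rw [Finset.length_toList] at this
      simp at this
      omega
    obtain ⟨y, t', hyt⟩ := List.exists_cons_of_ne_nil htne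
    have hz : t.getLast htne ∈ (c :: t).getLast? := by
      rw [List.getLast?_cons, List.getLast?_eq_getLast_of_ne_nil htne]
      simp
    have hzt : t.getLast htne ∈ t.getLast? := List.getLast?_eq_getLast_of_ne_nil htne
    have k1 := alt1 _ ht c (by simp) _ hz
    have k2 := alt1 _ ht' y (by rw [hyt]; simp) c (by rw [List.getLast?_append]; simp)
    have kc := typ c hc
    have hzD := hml ht _ hz
    have hyD : y ∈ D := (ht.mem y).1 (by rw [hyt]; simp)
    have kz := typ _ hzD
    have ky := typ _ hyD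
    have tch : t.IsChain E := by
      have := ht.chain
      rw [List.isChain_cons] at this
      exact this.2
    have thead : ∀ u ∈ t.head?, u = y := by rw [hyt]; simp
    have tlast : ∀ u ∈ t.getLast?, u = t.getLast htne := fun u hu => Option.mem_unique hu hzt
    have tperm : c :: t ~ D.toList := permD ht
    have general : ∀ p q : V, (p = a ∧ q = b ∨ p = b ∧ q = a) → E c p → E p y →
        E (t.getLast htne) q → E q c → False := by
      intro p q hpq e1 e2 e3 e4
      have hperm0 : p :: q :: D.toList ~ a :: b :: D.toList := by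
        rcases hpq with ⟨rfl, rfl⟩ | ⟨rfl, rfl⟩
        · exact List.Perm.refl _
        · exact List.Perm.swap _ _ _
      have hXp : X p := by rcases hpq with ⟨rfl, rfl⟩ | ⟨rfl, rfl⟩ <;> assumption
      have hYq : Y q := by rcases hpq with ⟨rfl, rfl⟩ | ⟨rfl, rfl⟩ <;> assumption
      rcases hXY with hXc | hYc
      · refine asm (c :: p :: (t ++ [q])) ?_ ?_ (by simpa using hXc) ?_
        · rw [List.isChain_cons, List.isChain_cons, isChain_mid]
          refine ⟨by simpa using e1, ?_, tch, by simp, fun x hx => ?_, by simp⟩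
          · rw [hyt]; simpa using e2
          · rw [tlast x hx]; exact e3
        · refine List.Perm.trans ?_ ((List.Perm.cons p (List.Perm.cons q tperm)).trans hperm0)
          rw [List.perm_iff_count]
          intro x
          simp only [List.count_append, List.count_cons, List.count_nil]
          ring
        · rw [← List.cons_append, ← List.cons_append, List.getLast?_append]
          simpa using hYq
      · refine asm (p :: (t ++ q :: [c])) ?_ ?_ (by simpa using hXp) ?_
        · rw [List.isChain_cons, isChain_mid]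
          refine ⟨?_, tch, by simp, fun x hx => ?_, by simpa using e4⟩
          · rw [hyt]; simpa using e2
          · rw [tlast x hx]; exact e3
        · refine List.Perm.trans ?_ ((List.Perm.cons p (List.Perm.cons q tperm)).trans hperm0)
          rw [List.perm_iff_count]
          intro x
          simp only [List.count_append, List.count_cons, List.count_nil]
          ring
        · rw [← List.cons_append, List.getLast?_append]
          simpa using hYc
    rcases kc with kc | kc
    · exact general b a (Or.inr ⟨rfl, rfl⟩) kc.2.2.1 (by tauto) (by tauto) kc.1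
    · exact general a b (Or.inl ⟨rfl, rfl⟩) kc.2.2.1 (by tauto) (by tauto) kc.1
  · classical
    have hcard := Finset.card_filter_add_card_filter_not (s := D) (fun x => E a x)
    by_cases h3 : 3 ≤ (D.filter fun x => E a x).card
    · refine P1 (ham_of_three_mem hSD c1 c2 ⟨_, Finset.filter_subset _ _, h3, ?_⟩)
      intro x hx
      rw [Finset.mem_filter] at hx
      have := typ x hx.1
      tauto
    · refine P2 (ham_of_three_mem hSD c3 c4 ⟨D.filter fun x => ¬ E a x,
        Finset.filter_subset _ _, by omega, ?_⟩)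
      intro x hx
      rw [Finset.mem_filter] at hx
      have := typ x hx.1
      tauto

/-- **The pair lemma.** -/
theorem pair_lemma [DecidableEq V] {a b : V} (hab : a ≠ b) (ha : a ∈ S) (hb : b ∈ S)
    (hS : Semi E S) (hs : Strong E S)
    (hXa : X a) (hXb : X b) (hYa : Y a) (hYb : Y b)
    (ka : ReachTo E (S.erase a) Y) (kb : ReachTo E (S.erase b) Y)
    (h : (∃ c ∈ S, c ≠ a ∧ c ≠ b ∧ (X c ∨ Y c)) ∨ 7 ≤ S.card) : Ham E S X Y := by
  have hba : b ∈ S.erase a := Finset.mem_erase.2 ⟨hab.symm, hb⟩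
  have hab' : a ∈ S.erase b := Finset.mem_erase.2 ⟨hab, ha⟩
  have sub : ∀ {u : V} {T : Finset V}, T.erase u ⊆ T := fun {u T} => Finset.erase_subset _ _
  by_cases hA : Strong E (S.erase a)
  swap
  · exact Ham.prepend (ham_of_not_strong (hS.mono sub) (reachFrom_erase hs ha) ka hA) ha hXa
  by_cases hB : Strong E (S.erase b)
  swap
  · exact Ham.prepend (ham_of_not_strong (hS.mono sub) (reachFrom_erase hs hb) kb hB) hb hXb
  have hDeq : (S.erase b).erase a = (S.erase a).erase b := Finset.erase_right_comm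
  have hSD : insert a (insert b ((S.erase a).erase b)) = S := by
    rw [Finset.insert_erase hba, Finset.insert_erase ha]
  have c1 : ReachFrom E ((S.erase a).erase b) (E a) := hDeq ▸ reachFrom_erase hB hab'
  have c4 : ReachTo E ((S.erase a).erase b) (fun z => E z a) := hDeq ▸ reachTo_erase hB hab'
  have c3 : ReachFrom E ((S.erase a).erase b) (E b) := reachFrom_erase hA hba
  have c2 : ReachTo E ((S.erase a).erase b) (fun z => E z b) := reachTo_erase hA hba
  have hD : Semi E ((S.erase a).erase b) := hS.mono (sub.trans sub)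
  have fin1 : Ham E ((S.erase a).erase b) (E a) (fun z => E z b) → Ham E S X Y := by
    intro hH
    exact Ham.prepend (Ham.postpend hH hba hYb) ha hXa
  rcases Finset.eq_empty_or_nonempty ((S.erase a).erase b) with h0 | hne
  · have h1 : S.erase a = {b} := by
      rw [← Finset.insert_erase hba, h0]; rfl
    have h2 : S.erase b = {a} := by
      rw [← Finset.insert_erase hab', hDeq, h0]; rfl
    rcases hS a ha b hb hab with hE | hE
    · exact Ham.prepend (h1 ▸ Ham.single hE hYb) ha hXa
    · exact Ham.prepend (h2 ▸ Ham.single hE hYa) hb hXb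
  by_cases hDs : Strong E ((S.erase a).erase b)
  swap
  · exact fin1 (ham_of_not_strong hD c1 c2 hDs)
  by_cases h2 : 2 ≤ ((S.erase a).erase b).card
  swap
  · have h1 : ((S.erase a).erase b).card = 1 := by
      have := Finset.card_pos.2 hne
      omega
    obtain ⟨d, hd⟩ := Finset.card_eq_one.1 h1
    refine fin1 ?_
    rw [hd] at c1 c2 ⊢
    refine Ham.single ?_ ?_
    · rcases c1 {d} subset_rfl (by simp) with ⟨c, hc, h'⟩ | ⟨u, hu, h', -⟩
      · rwa [Finset.mem_singleton.1 hc] at h'
      · exact absurd hu h'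
    · rcases c2 {d} subset_rfl (by simp) with ⟨c, hc, h'⟩ | ⟨c, hc, u, hu, h', -⟩
      · rwa [Finset.mem_singleton.1 hc] at h'
      · exact absurd hu h'
  have := pair_core (X := X) (Y := Y) hab (D := (S.erase a).erase b) (by simp) (by simp)
    (by rw [hSD]; exact hS) hDs h2 c1 c2 c3 c4 hXa hXb hYa hYb ?_
  · rwa [hSD] at this
  · rcases h with ⟨c, hc, h1, h2, h3⟩ | h7
    · exact Or.inl ⟨c, by simp [hc, h1, h2], h3⟩
    · right
      rw [Finset.card_erase_of_mem hba, Finset.card_erase_of_mem ha]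
      omega

end Pool.Agent.Lib88.HamSplit
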