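import Pool.Agent.Lib_helper54.HamPath.Defs

/-!
# Splitting a hamiltonian path at one vertex
-/

namespace Pool.Agent.Lib88.HamSplit

open List Pool.Agent.Lib53.HamBase Pool.Agent.Lib54.HP

variable {V : Type*} {E : V → V → Prop} {S : Finset V} {X Y : V → Prop}

lemma ham_iff : Ham E S X Y ↔ ∃ l : List V, l ≠ [] ∧ l.IsChain E ∧ l.Nodup ∧
    (∀ a ∈ l.head?, X a) ∧ (∀ b ∈ l.getLast?, Y b) ∧ ∀ v, v ∈ l ↔ v ∈ S := by
  constructor
  · rintro ⟨a, b, l, hp, ha, hb, hl⟩
    refine ⟨l, hp.ne_nil, hp.chain, hp.nodup, ?_, ?_, hl⟩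
    · intro a' ha'
      rw [hp.head] at ha'
      obtain rfl : a = a' := by simpa using ha'
      exact ha
    · intro b' hb'
      rw [hp.last] at hb'
      obtain rfl : b = b' := by simpa using hb'
      exact hb
  · rintro ⟨l, hne, hc, hn, hX, hY, hl⟩
    obtain ⟨a, ha⟩ := Option.isSome_iff_exists.1 (List.isSome_head?.2 hne)
    rcases hb : l.getLast? with _ | b
    · exact absurd (List.getLast?_eq_none_iff.1 hb) hne
    · exact ⟨a, b, l, ⟨hc, hn, ha, hb⟩, hX a ha, hY b hb, hl⟩

lemma isChain_mid {l₁ l₂ : List V} {p : V} : (l₁ ++ p :: l₂).IsChain E ↔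
    l₁.IsChain E ∧ l₂.IsChain E ∧ (∀ x ∈ l₁.getLast?, E x p) ∧ ∀ y ∈ l₂.head?, E p y := by
  rw [List.isChain_append, List.isChain_cons]
  simp only [List.head?_cons, Option.mem_def, Option.some.injEq, forall_eq']
  tauto

lemma stay {A B : Finset V} (hAB : ∀ a ∈ A, ∀ b ∈ B, ¬ E a b) : ∀ (l : List V), l.IsChain E →
    (∀ x ∈ l, x ∈ A ∨ x ∈ B) → (∀ a ∈ l.head?, a ∈ A) → ∀ x ∈ l, x ∈ A := by
  intro l
  induction l with
  | nil => simp
  | cons a l ih =>
    intro hc hm hh x hx
    rw [List.isChain_cons] at hc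
    have ha : a ∈ A := hh a (by simp)
    rcases List.mem_cons.1 hx with rfl | hx
    · exact ha
    · refine ih hc.2 (fun y hy => hm y (List.mem_cons_of_mem _ hy)) (fun b hb => ?_) x hx
      rcases hm b (List.mem_cons_of_mem _ (List.mem_of_head? hb)) with h | h
      · exact h
      · exact absurd (hc.1 b hb) (hAB a ha b h)

lemma stay' {A B : Finset V} (hAB : ∀ a ∈ A, ∀ b ∈ B, ¬ E a b) : ∀ (l : List V), l.IsChain E →
    (∀ x ∈ l, x ∈ A ∨ x ∈ B) → (∀ a ∈ l.getLast?, a ∈ B) → ∀ x ∈ l, x ∈ B := by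
  intro l
  induction l with
  | nil => simp
  | cons a l ih =>
    intro hc hm hh x hx
    rw [List.isChain_cons] at hc
    have hl : ∀ y ∈ l, y ∈ B := by
      rcases l with _ | ⟨b, l⟩
      · simp
      · refine ih hc.2 (fun y hy => hm y (List.mem_cons_of_mem _ hy)) (fun c hcc => hh c ?_)
        rw [List.getLast?_cons_cons]; exact hcc
    rcases List.mem_cons.1 hx with rfl | hx
    · rcases l with _ | ⟨b, l⟩
      · exact hh x (by simp)
      · rcases hm x (by simp) with h | h
        · exact absurd (hc.1 b (by simp)) (hAB x h b (hl b (by simp)))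
        · exact h
    · exact hl x hx

lemma splitBA {A B : Finset V} (hAB : ∀ a ∈ A, ∀ b ∈ B, ¬ E a b) : ∀ (l : List V), l.IsChain E →
    (∀ x ∈ l, x ∈ A ∨ x ∈ B) → ∃ lB lA, l = lB ++ lA ∧ (∀ x ∈ lB, x ∈ B) ∧ ∀ x ∈ lA, x ∈ A := by
  intro l
  induction l with
  | nil => exact fun _ _ => ⟨[], [], rfl, by simp, by simp⟩
  | cons a l ih =>
    intro hc hm
    by_cases ha : a ∈ A
    · exact ⟨[], a :: l, rfl, by simp, stay hAB _ hc hm (by simpa using ha)⟩
    · have hb : a ∈ B := (hm a (by simp)).resolve_left ha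
      rw [List.isChain_cons] at hc
      obtain ⟨lB, lA, he, h1, h2⟩ := ih hc.2 fun y hy => hm y (List.mem_cons_of_mem _ hy)
      refine ⟨a :: lB, lA, by rw [he]; rfl, ?_, h2⟩
      intro x hx
      rcases List.mem_cons.1 hx with rfl | hx
      · exact hb
      · exact h1 x hx

theorem split1 : Split1 := by
  intro V _ E A B w X Y hwA hwB hd hAB hXB hYA
  rw [Finset.disjoint_left] at hd
  constructor
  · intro h
    obtain ⟨l, hne, hc, hn, hX, hY, hl⟩ := ham_iff.1 h
    obtain ⟨α, γ, rfl⟩ := List.append_of_mem ((hl w).2 (by simp))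
    rw [isChain_mid] at hc
    obtain ⟨c1, c2, c3, c4⟩ := hc
    have hwα : w ∉ α ∧ w ∉ γ := by
      rw [List.nodup_middle, List.nodup_cons] at hn
      simpa using hn.1
    have hn1 : α.Nodup := (List.nodup_append.1 hn).1
    have hn2 : γ.Nodup := (List.nodup_cons.1 (List.nodup_append.1 hn).2.1).2
    have hα0 : ∀ x ∈ α, x ∈ A ∨ x ∈ B := by
      intro x hx
      have := (hl x).1 (by simp [hx])
      simp only [Finset.mem_insert, Finset.mem_union] at this
      rcases this with rfl | h
      · exact absurd hx hwα.1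
      · exact h
    have hγ0 : ∀ x ∈ γ, x ∈ A ∨ x ∈ B := by
      intro x hx
      have := (hl x).1 (by simp [hx])
      simp only [Finset.mem_insert, Finset.mem_union] at this
      rcases this with rfl | h
      · exact absurd hx hwα.2
      · exact h
    have hα : ∀ x ∈ α, x ∈ A := by
      refine stay hAB α c1 hα0 fun a ha => ?_
      rcases hα0 a (List.mem_of_head? ha) with h | h
      · exact h
      · refine absurd (hX a ?_) (hXB a h)
        rw [List.head?_append]
        rw [Option.mem_def] at ha ⊢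
        rw [ha]; rfl
    have hγ : ∀ x ∈ γ, x ∈ B := by
      refine stay' hAB γ c2 hγ0 fun a ha => ?_
      rcases hγ0 a (List.mem_of_getLast? ha) with h | h
      · refine absurd (hY a ?_) (hYA a h)
        rw [List.getLast?_append, List.getLast?_cons]
        rw [Option.mem_def] at ha ⊢
        simp [ha]
      · exact h
    have hαA : ∀ v, v ∈ α ↔ v ∈ A := by
      intro v
      refine ⟨hα v, fun hv => ?_⟩
      have := (hl v).2 (by simp [hv])
      simp only [List.mem_append, List.mem_cons] at this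
      rcases this with h | rfl | h
      · exact h
      · exact absurd hv hwA
      · exact absurd (hγ v h) (hd hv)
    have hγB : ∀ v, v ∈ γ ↔ v ∈ B := by
      intro v
      refine ⟨hγ v, fun hv => ?_⟩
      have := (hl v).2 (by simp [hv])
      simp only [List.mem_append, List.mem_cons] at this
      rcases this with h | rfl | h
      · exact absurd hv (hd (hα v h))
      · exact absurd hv hwB
      · exact h
    constructor
    · rcases eq_or_ne α [] with rfl | hα'
      · left
        refine ⟨?_, hX w (by simp)⟩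
        ext v; simpa using (hαA v).symm
      · right
        refine ham_iff.2 ⟨α, hα', c1, hn1, fun a ha => hX a ?_, c3, hαA⟩
        rw [List.head?_append]
        rw [Option.mem_def] at ha ⊢
        rw [ha]; rfl
    · rcases eq_or_ne γ [] with rfl | hγ'
      · left
        refine ⟨?_, hY w (by simp)⟩
        ext v; simpa using (hγB v).symm
      · right
        refine ham_iff.2 ⟨γ, hγ', c2, hn2, c4, fun a ha => hY a ?_, hγB⟩
        rw [List.getLast?_append, List.getLast?_cons]
        rw [Option.mem_def] at ha ⊢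
        simp [ha]
  · rintro ⟨h1, h2⟩
    have hα : ∃ α : List V, α.IsChain E ∧ α.Nodup ∧ (∀ a ∈ (α ++ [w]).head?, X a) ∧
        (∀ b ∈ α.getLast?, E b w) ∧ ∀ v, v ∈ α ↔ v ∈ A := by
      rcases h1 with ⟨rfl, hw⟩ | h1
      · exact ⟨[], by simp, by simp, by simpa using hw, by simp, by simp⟩
      · obtain ⟨l, hne, hc, hn, hX, hY, hl⟩ := ham_iff.1 h1
        refine ⟨l, hc, hn, ?_, hY, hl⟩
        obtain ⟨x, l, rfl⟩ := List.exists_cons_of_ne_nil hne
        simpa using hX
    have hγ : ∃ γ : List V, γ.IsChain E ∧ γ.Nodup ∧ (∀ a ∈ (w :: γ).getLast?, Y a) ∧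
        (∀ b ∈ γ.head?, E w b) ∧ ∀ v, v ∈ γ ↔ v ∈ B := by
      rcases h2 with ⟨rfl, hw⟩ | h1
      · exact ⟨[], by simp, by simp, by simpa using hw, by simp, by simp⟩
      · obtain ⟨l, hne, hc, hn, hX, hY, hl⟩ := ham_iff.1 h1
        refine ⟨l, hc, hn, ?_, hX, hl⟩
        obtain ⟨x, l, rfl⟩ := List.exists_cons_of_ne_nil hne
        rw [List.getLast?_cons_cons]
        exact hY
    obtain ⟨α, a1, a2, a3, a4, a5⟩ := hα
    obtain ⟨γ, b1, b2, b3, b4, b5⟩ := hγ
    refine ham_iff.2 ⟨α ++ w :: γ, by simp, isChain_mid.2 ⟨a1, b1, a4, b4⟩, ?_, ?_, ?_, ?_⟩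
    · rw [List.nodup_append]
      refine ⟨a2, List.nodup_cons.2 ⟨fun h => hwB ((b5 w).1 h), b2⟩, ?_⟩
      intro a ha b hb hab
      subst hab
      rw [a5] at ha
      rcases List.mem_cons.1 hb with rfl | hb
      · exact hwA ha
      · exact hd ha ((b5 a).1 hb)
    · intro a ha
      refine a3 a ?_
      rcases α with _ | ⟨x, α⟩
      · simpa using ha
      · simpa using ha
    · intro b hb
      refine b3 b ?_
      rw [List.getLast?_append, List.getLast?_cons] at hb
      rw [List.getLast?_cons]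
      simpa using hb
    · intro v
      simp only [List.mem_append, List.mem_cons, Finset.mem_insert, Finset.mem_union, a5, b5]
      tauto

end Pool.Agent.Lib88.HamSplit
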